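import Pool.Agent.Q85.VL.Defs

/-!
Project VL, statement VL-1 (`StmBas`): the smooth step and the smooth distance.
-/

set_option autoImplicit false

open MeasureTheory Set Metric Filter Topology
open scoped ContDiff
open H459R3.NS Pool.Agent.W268.NS Pool.Agent.Q67.VD

namespace Pool.Agent.Run7.h32.VL

open Pool.Agent.Q85.VL

/-! ### the smooth step -/

lemma cl_cont : Continuous fun s : ℝ => max 0 (min 1 s) := by fun_prop

lemma cl_nn (s : ℝ) : 0 ≤ max 0 (min 1 s) := le_max_left _ _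

lemma cl_le (s : ℝ) : max 0 (min 1 s) ≤ 1 := max_le zero_le_one (min_le_left _ _)

lemma cl_left {s : ℝ} (hs : s ≤ 0) : max 0 (min 1 s) = 0 :=
  max_eq_left ((min_le_right _ _).trans hs)

lemma cl_right {s : ℝ} (hs : 1 ≤ s) : max 0 (min 1 s) = 1 := by
  rw [min_eq_left hs, max_eq_right zero_le_one]

lemma cl_mid {s : ℝ} (h0 : 0 ≤ s) (h1 : s ≤ 1) : max 0 (min 1 s) = s := by
  rw [min_eq_right h1, max_eq_right h0]

lemma stp_left {s : ℝ} (hs : s ≤ 0) : stp s = 0 := by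
  unfold stp
  rw [cl_left hs]
  norm_num

lemma stp_right {s : ℝ} (hs : 1 ≤ s) : stp s = 1 := by
  unfold stp
  rw [cl_right hs]
  norm_num

lemma stp_mid {s : ℝ} (h0 : 0 ≤ s) (h1 : s ≤ 1) : stp s = 3 * s ^ 2 - 2 * s ^ 3 := by
  unfold stp
  rw [cl_mid h0 h1]

lemma stp'_left {s : ℝ} (hs : s ≤ 0) : stp' s = 0 := by
  unfold stp'
  rw [cl_left hs]
  norm_num

lemma stp'_right {s : ℝ} (hs : 1 ≤ s) : stp' s = 0 := by
  unfold stp'
  rw [cl_right hs]
  norm_num

lemma stp'_mid {s : ℝ} (h0 : 0 ≤ s) (h1 : s ≤ 1) : stp' s = 6 * s * (1 - s) := by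
  unfold stp'
  rw [cl_mid h0 h1]

lemma stp'_cont : Continuous stp' := by
  unfold stp'
  have := cl_cont
  fun_prop

lemma poly_deriv (s : ℝ) :
    HasDerivAt (fun s : ℝ => 3 * s ^ 2 - 2 * s ^ 3) (6 * s * (1 - s)) s := by
  have h := ((hasDerivAt_pow 2 s).const_mul 3).fun_sub ((hasDerivAt_pow 3 s).const_mul 2)
  refine h.congr_deriv ?_
  norm_num
  ring

lemma stp_deriv (s : ℝ) : HasDerivAt stp (stp' s) s := by
  have hA : HasDerivWithinAt stp (stp' s) (Iic 0) s := by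
    by_cases hs : s ≤ 0
    · rw [stp'_left hs]
      exact (hasDerivWithinAt_const s (Iic 0) (0 : ℝ)).congr (fun t ht => stp_left ht)
        (stp_left hs)
    · exact HasFDerivWithinAt.of_notMem_closure (by rwa [isClosed_Iic.closure_eq])
  have hB : HasDerivWithinAt stp (stp' s) (Icc 0 1) s := by
    by_cases hs : s ∈ Icc (0 : ℝ) 1
    · rw [stp'_mid hs.1 hs.2]
      exact (poly_deriv s).hasDerivWithinAt.congr (fun t ht => stp_mid ht.1 ht.2)
        (stp_mid hs.1 hs.2)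
    · exact HasFDerivWithinAt.of_notMem_closure (by rwa [isClosed_Icc.closure_eq])
  have hC : HasDerivWithinAt stp (stp' s) (Ici 1) s := by
    by_cases hs : 1 ≤ s
    · rw [stp'_right hs]
      exact (hasDerivWithinAt_const s (Ici 1) (1 : ℝ)).congr (fun t ht => stp_right ht)
        (stp_right hs)
    · exact HasFDerivWithinAt.of_notMem_closure (by rwa [isClosed_Ici.closure_eq])
  have h := (hA.union hB).union hC
  have e : (Iic (0 : ℝ) ∪ Icc 0 1) ∪ Ici 1 = univ := by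
    ext t
    simp only [mem_union, mem_Iic, mem_Icc, mem_Ici, mem_univ, iff_true]
    rcases le_total t 0 with h0 | h0
    · exact Or.inl (Or.inl h0)
    · rcases le_total t 1 with h1 | h1
      · exact Or.inl (Or.inr ⟨h0, h1⟩)
      · exact Or.inr h1
  rw [e] at h
  exact hasDerivWithinAt_univ.1 h

lemma stp_c1 : ContDiff ℝ 1 stp :=
  Pool.Agent.Q151.CC.contDiff_of_deriv stp_deriv stp'_cont

lemma stp'_nn (s : ℝ) : 0 ≤ stp' s := by
  unfold stp'
  have h1 := cl_nn s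
  have h2 := cl_le s
  exact mul_nonneg (by positivity) (by linarith)

lemma stp'_le (s : ℝ) : stp' s ≤ 2 := by
  unfold stp'
  nlinarith [sq_nonneg (max 0 (min 1 s) - 1 / 2)]

lemma stp_mono : Monotone stp := by
  refine monotone_of_deriv_nonneg (stp_c1.differentiable one_ne_zero) fun s => ?_
  rw [(stp_deriv s).deriv]
  exact stp'_nn s

lemma stp_nn (s : ℝ) : 0 ≤ stp s := by
  rcases le_total s 0 with h | h
  · rw [stp_left h]
  · rw [← stp_left (le_refl (0 : ℝ))]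
    exact stp_mono h

lemma stp_le (s : ℝ) : stp s ≤ 1 := by
  rcases le_total 1 s with h | h
  · rw [stp_right h]
  · rw [← stp_right (le_refl (1 : ℝ))]
    exact stp_mono h

lemma stp'_supp {s : ℝ} (h : stp' s ≠ 0) : 0 < s ∧ s < 1 := by
  constructor
  · by_contra hc
    exact h (stp'_left (not_lt.1 hc))
  · by_contra hc
    exact h (stp'_right (not_lt.1 hc))

lemma stp_pos {s : ℝ} (h : stp s ≠ 0) : 0 < s := by
  by_contra hc
  exact h (stp_left (not_lt.1 hc))

lemma stp_lt {s : ℝ} (h : stp s ≠ 1) : s < 1 := by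
  by_contra hc
  exact h (stp_right (not_lt.1 hc))

/-! ### the length -/

lemma len_eq (a : V) : len a = ‖(WithLp.toLp 2 a : EuclideanSpace ℝ (Fin 3))‖ := by
  rw [EuclideanSpace.norm_eq, len]
  congr 1
  simp only [dotProduct, Real.norm_eq_abs, sq_abs]
  exact Finset.sum_congr rfl fun i _ => (sq _).symm

lemma len_nonneg (a : V) : 0 ≤ len a := Real.sqrt_nonneg _

lemma len_sq (a : V) : len a ^ 2 = a 0 ^ 2 + a 1 ^ 2 + a 2 ^ 2 := by
  rw [len, Real.sq_sqrt]
  · simp only [dotProduct, Fin.sum_univ_three]; ring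
  · simp only [dotProduct, Fin.sum_univ_three]; nlinarith [sq_nonneg (a 0), sq_nonneg (a 1), sq_nonneg (a 2)]

lemma abs_le_len (a : V) (i : Fin 3) : |a i| ≤ len a := by
  refine abs_le_of_sq_le_sq ?_ (len_nonneg a)
  rw [len_sq]
  fin_cases i <;> simp <;> nlinarith [sq_nonneg (a 0), sq_nonneg (a 1), sq_nonneg (a 2)]

lemma len_le_of_sq {a : V} {c : ℝ} (hc : 0 ≤ c) (h : a 0 ^ 2 + a 1 ^ 2 + a 2 ^ 2 ≤ c ^ 2) :
    len a ≤ c := by
  have h2 : len a ^ 2 ≤ c ^ 2 := by rw [len_sq]; exact h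
  have h3 := abs_le_of_sq_le_sq h2 hc
  rwa [abs_of_nonneg (len_nonneg a)] at h3

lemma len_smul (c : ℝ) (a : V) : len (c • a) = |c| * len a := by
  rw [len_eq, len_eq, WithLp.toLp_smul, norm_smul, Real.norm_eq_abs]

lemma len_zero : len (0 : V) = 0 := by
  rw [len_eq, WithLp.toLp_zero, norm_zero]

lemma dot_self (a : V) : a ⬝ᵥ a = len a ^ 2 := by
  rw [len_sq]
  simp only [dotProduct, Fin.sum_univ_three]
  ring

lemma dot_le (a b : V) : a ⬝ᵥ b ≤ len a * len b := by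
  refine (le_abs_self _).trans ?_
  refine abs_le_of_sq_le_sq ?_ (mul_nonneg (len_nonneg _) (len_nonneg _))
  rw [mul_pow, ← dot_self, ← dot_self]
  exact Pool.Agent.Q151.CC.cs a b

lemma abs_dot_le (a b : V) : |a ⬝ᵥ b| ≤ len a * len b := by
  refine abs_le_of_sq_le_sq ?_ (mul_nonneg (len_nonneg _) (len_nonneg _))
  rw [mul_pow, ← dot_self, ← dot_self]
  exact Pool.Agent.Q151.CC.cs a b

lemma len_add (a b : V) : len (a + b) ≤ len a + len b := by
  rw [len_eq, len_eq, len_eq, WithLp.toLp_add]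
  exact norm_add_le _ _

lemma len_neg (a : V) : len (-a) = len a := by
  rw [len_eq, len_eq, WithLp.toLp_neg, norm_neg]

lemma len_sub_comm (a b : V) : len (a - b) = len (b - a) := by
  rw [← len_neg, neg_sub]

lemma norm_le_len (a : V) : ‖a‖ ≤ len a := by
  rw [pi_norm_le_iff_of_nonneg (len_nonneg a)]
  intro i
  rw [Real.norm_eq_abs]
  exact abs_le_len a i

lemma len_le_two (a : V) : len a ≤ 2 * ‖a‖ := by
  have h : ∀ i, a i ^ 2 ≤ ‖a‖ ^ 2 := by
    intro i
    rw [← sq_abs, ← Real.norm_eq_abs]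
    exact pow_le_pow_left₀ (norm_nonneg _) (norm_le_pi_norm a i) 2
  refine len_le_of_sq (by positivity) ?_
  nlinarith [h 0, h 1, h 2, sq_nonneg ‖a‖]

lemma len_cont : Continuous len := by
  unfold len
  exact (continuous_id.dotProduct continuous_id).sqrt

/-! ### the smooth distance -/

lemma ds_sq (x : V) (ρ : ℝ) (y : V) : ds x ρ y ^ 2 = len (y - x) ^ 2 + ρ ^ 2 := by
  unfold ds
  rw [dot_self, Real.sq_sqrt (by positivity)]

lemma ds_nn (x : V) (ρ : ℝ) (y : V) : 0 ≤ ds x ρ y := Real.sqrt_nonneg _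

lemma len_le_ds (x : V) (ρ : ℝ) (y : V) : len (y - x) ≤ ds x ρ y := by
  have h := ds_sq x ρ y
  refine le_of_abs_le (abs_le_of_sq_le_sq ?_ (ds_nn x ρ y))
  nlinarith [sq_nonneg ρ]

lemma rho_le_ds (x : V) (ρ : ℝ) (y : V) : ρ ≤ ds x ρ y := by
  have h := ds_sq x ρ y
  refine le_of_abs_le (abs_le_of_sq_le_sq ?_ (ds_nn x ρ y))
  nlinarith [sq_nonneg (len (y - x))]

lemma ds_le (x : V) {ρ : ℝ} (hρ : 0 ≤ ρ) (y : V) : ds x ρ y ≤ len (y - x) + ρ := by
  have h := ds_sq x ρ y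
  have h1 := len_nonneg (y - x)
  refine le_of_abs_le (abs_le_of_sq_le_sq ?_ (by positivity))
  nlinarith [mul_nonneg h1 hρ]

lemma norm_le_ds (x : V) (ρ : ℝ) (y : V) : ‖y - x‖ ≤ ds x ρ y :=
  (norm_le_len _).trans (len_le_ds x ρ y)

lemma ds_near {x : V} {ρ : ℝ} {y : V} (h : ‖y - x‖ ≤ ρ) : ds x ρ y ≤ 2 * ρ := by
  have hρ : 0 ≤ ρ := (norm_nonneg _).trans h
  have h1 : ∀ i, (y - x) i ^ 2 ≤ ρ ^ 2 := by
    intro i
    rw [← sq_abs, ← Real.norm_eq_abs]
    exact pow_le_pow_left₀ (norm_nonneg _) ((norm_le_pi_norm (y - x) i).trans h) 2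
  refine le_of_abs_le (abs_le_of_sq_le_sq ?_ (by positivity))
  rw [ds_sq, len_sq]
  nlinarith [h1 0, h1 1, h1 2]

lemma ds_pos (x : V) {ρ : ℝ} (hρ : 0 < ρ) (y : V) : 0 < ds x ρ y := hρ.trans_le (rho_le_ds x ρ y)

lemma ds_smooth (x : V) {ρ : ℝ} (hρ : 0 < ρ) : ContDiff ℝ ∞ (ds x ρ) := by
  unfold ds
  refine ContDiff.sqrt ?_ fun y => ?_
  · have : (fun y : V => (y - x) ⬝ᵥ (y - x) + ρ ^ 2) = fun y : V => (y 0 - x 0) * (y 0 - x 0)
        + (y 1 - x 1) * (y 1 - x 1) + (y 2 - x 2) * (y 2 - x 2) + ρ ^ 2 := by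
      funext y
      simp only [dotProduct, Fin.sum_univ_three, Pi.sub_apply]
    rw [this]
    fun_prop
  · rw [dot_self]
    positivity

lemma ds_lip (x : V) {ρ : ℝ} (hρ : 0 < ρ) (y z : V) : |ds x ρ y - ds x ρ z| ≤ len (y - z) := by
  have key : ∀ y z : V, ds x ρ y - ds x ρ z ≤ len (y - z) := by
    intro y z
    have h1 : len (y - x) ≤ len (y - z) + len (z - x) := by
      have := len_add (y - z) (z - x)
      rwa [sub_add_sub_cancel] at this
    have h2 := len_nonneg (y - z)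
    have h3 := len_le_ds x ρ z
    have h4 := len_nonneg (z - x)
    have h5 := len_nonneg (y - x)
    have h6 : ds x ρ y ≤ len (y - z) + ds x ρ z := by
      refine le_of_abs_le (abs_le_of_sq_le_sq ?_ (add_nonneg h2 (ds_nn x ρ z)))
      rw [ds_sq]
      have h7 := ds_sq x ρ z
      have h8 : len (y - x) ^ 2 ≤ (len (y - z) + len (z - x)) ^ 2 := pow_le_pow_left₀ h5 h1 2
      nlinarith
    linarith
  rw [abs_le]
  constructor
  · have := key z y
    rw [len_sub_comm] at this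
    linarith
  · exact key y z

/-- the derivative of a function with Lipschitz constant one -/
lemma fderiv_le_len {g : V → ℝ} {y : V} (hg : DifferentiableAt ℝ g y)
    (hl : ∀ y z, |g y - g z| ≤ len (y - z)) (n : V) : |fderiv ℝ g y n| ≤ len n := by
  have h1 : HasDerivAt (fun t : ℝ => g (y + t • n)) (fderiv ℝ g y n) 0 :=
    hg.hasFDerivAt.hasLineDerivAt n
  have h2 : Tendsto (fun t : ℝ => |t⁻¹ * (g (y + t • n) - g y)|) (𝓝[≠] 0)
      (𝓝 |fderiv ℝ g y n|) := by
    have h3 := hasDerivAt_iff_tendsto_slope.1 h1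
    have h4 := h3.abs
    refine h4.congr fun t => ?_
    simp only [slope, vsub_eq_sub, sub_zero, smul_eq_mul, zero_smul, add_zero]
  refine le_of_tendsto h2 ?_
  filter_upwards [self_mem_nhdsWithin] with t ht
  have ht0 : t ≠ 0 := ht
  have h5 := hl (y + t • n) y
  rw [add_sub_cancel_left, len_smul] at h5
  rw [abs_mul, abs_inv]
  have h6 : 0 < |t| := abs_pos.2 ht0
  rw [inv_mul_le_iff₀ h6]
  exact h5

theorem stmBas : StmBas := by
  refine ⟨stp_deriv, stp_c1, stp'_cont, stp_mono,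
    fun s => ⟨stp_nn s, stp_le s, stp'_nn s, stp'_le s⟩, fun s hs => stp_left hs,
    fun s hs => stp_right hs, fun s hs => stp'_supp hs, fun s hs => stp_pos hs,
    fun s hs => stp_lt hs, fun x ρ hρ => ⟨ds_smooth x hρ, len_le_ds x ρ, rho_le_ds x ρ,
      ds_le x hρ.le, norm_le_ds x ρ, fun y hy => ds_near hy, ds_lip x hρ, fun y n => ?_⟩⟩
  exact fderiv_le_len ((ds_smooth x hρ).differentiable (by norm_cast) y) (ds_lip x hρ) n

end Pool.Agent.Run7.h32.VL
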