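import Pool.Agent.Run7.h32.VL.Flx

/-!
Project VL, statement VL-5 (`StmFC`).
-/

set_option autoImplicit false

open MeasureTheory Set Metric Filter Topology
open scoped ContDiff
open H459R3.NS Pool.Agent.W268.NS Pool.Agent.Q67.VD

namespace Pool.Agent.Run7.h32.VL

open Pool.Agent.Q85.VL
open Pool.Agent.Q151.CC (WD)

/-! ### the cut-off function of a cube -/

/-- `b(t) = 1` for `|t| ≤ s - w`, `b(t) = 0` for `|t| ≥ s + w` -/
noncomputable def bb (s w t : ℝ) : ℝ :=
  (1 - stp ((t - (s - w)) / (2 * w))) * (1 - stp ((-t - (s - w)) / (2 * w)))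

/-- its derivative -/
noncomputable def bb' (s w t : ℝ) : ℝ :=
  -(stp' ((t - (s - w)) / (2 * w)) / (2 * w)) * (1 - stp ((-t - (s - w)) / (2 * w)))
    + (1 - stp ((t - (s - w)) / (2 * w))) * (stp' ((-t - (s - w)) / (2 * w)) / (2 * w))

lemma bb_deriv (s w t : ℝ) : HasDerivAt (bb s w) (bb' s w t) t := by
  have h1 : HasDerivAt (fun t : ℝ => (t - (s - w)) / (2 * w)) (1 / (2 * w)) t :=
    ((hasDerivAt_id t).sub_const (s - w)).div_const (2 * w)
  have h2 : HasDerivAt (fun t : ℝ => (-t - (s - w)) / (2 * w)) (-1 / (2 * w)) t :=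
    (((hasDerivAt_id t).neg).sub_const (s - w)).div_const (2 * w)
  have h3 := ((stp_deriv ((t - (s - w)) / (2 * w))).comp t h1).const_sub 1
  have h4 := ((stp_deriv ((-t - (s - w)) / (2 * w))).comp t h2).const_sub 1
  refine (h3.fun_mul h4).congr_deriv ?_
  unfold bb'
  simp only [Function.comp]
  ring

lemma bb'_cont (s w : ℝ) : Continuous (bb' s w) := by
  have h1 := stp'_cont
  have h2 := stp_c1.continuous
  unfold bb'
  fun_prop

lemma bb_c1 (s w : ℝ) : ContDiff ℝ 1 (bb s w) :=
  Pool.Agent.Q151.CC.contDiff_of_deriv (bb_deriv s w) (bb'_cont s w)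

lemma bb_nn (s w t : ℝ) : 0 ≤ bb s w t := by
  unfold bb
  have h1 := stp_le ((t - (s - w)) / (2 * w))
  have h2 := stp_le ((-t - (s - w)) / (2 * w))
  exact mul_nonneg (by linarith) (by linarith)

lemma bb_le (s w t : ℝ) : bb s w t ≤ 1 := by
  unfold bb
  have h1 := stp_le ((t - (s - w)) / (2 * w))
  have h2 := stp_nn ((-t - (s - w)) / (2 * w))
  have h3 := stp_nn ((t - (s - w)) / (2 * w))
  have h4 := stp_le ((-t - (s - w)) / (2 * w))
  have h5 : (1 - stp ((t - (s - w)) / (2 * w))) * (1 - stp ((-t - (s - w)) / (2 * w))) ≤ 1 * 1 := by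
    apply mul_le_mul (by linarith) (by linarith) (by linarith) zero_le_one
  linarith

lemma bb_one {s w t : ℝ} (hw : 0 < w) (h : |t| ≤ s - w) : bb s w t = 1 := by
  have h1 := abs_le.1 h
  unfold bb
  rw [stp_left, stp_left]
  · norm_num
  · apply div_nonpos_of_nonpos_of_nonneg _ (by positivity)
    linarith
  · apply div_nonpos_of_nonpos_of_nonneg _ (by positivity)
    linarith

lemma bb_lt {s w t : ℝ} (hw : 0 < w) (h : bb s w t ≠ 0) : |t| < s + w := by
  have h1 := left_ne_zero_of_mul h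
  have h2 := right_ne_zero_of_mul h
  have h3 : stp ((t - (s - w)) / (2 * w)) ≠ 1 := fun hc => h1 (by rw [hc, sub_self])
  have h4 : stp ((-t - (s - w)) / (2 * w)) ≠ 1 := fun hc => h2 (by rw [hc, sub_self])
  have h5 := stp_lt h3
  have h6 := stp_lt h4
  rw [div_lt_one (by positivity)] at h5 h6
  rw [abs_lt]
  constructor <;> linarith

lemma bb'_supp {s w t : ℝ} (hw : 0 < w) (h : bb' s w t ≠ 0) : s - w < |t| ∧ |t| < s + w := by
  by_cases h1 : stp' ((t - (s - w)) / (2 * w)) = 0
  · by_cases h2 : stp' ((-t - (s - w)) / (2 * w)) = 0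
    · exfalso
      apply h
      unfold bb'
      rw [h1, h2]
      ring
    · have h3 : stp ((t - (s - w)) / (2 * w)) ≠ 1 := by
        intro hc
        apply h
        unfold bb'
        rw [hc, h1]
        ring
      have h4 := stp_lt h3
      have h5 := stp'_supp h2
      rw [div_lt_one (by positivity)] at h4
      have h6 := (div_pos_iff_of_pos_right (by positivity : 0 < 2 * w)).1 h5.1
      have h7 := h5.2
      rw [div_lt_one (by positivity)] at h7
      constructor
      · rw [lt_abs]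
        right
        linarith
      · rw [abs_lt]
        constructor <;> linarith
  · have h5 := stp'_supp h1
    have h6 := (div_pos_iff_of_pos_right (by positivity : 0 < 2 * w)).1 h5.1
    have h7 := h5.2
    rw [div_lt_one (by positivity)] at h7
    have h8 : -(s + w) < t := by
      by_contra hc
      push Not at hc
      by_cases h2 : stp' ((-t - (s - w)) / (2 * w)) = 0
      · apply h
        have h9 : stp ((-t - (s - w)) / (2 * w)) = 1 := by
          apply stp_right
          rw [le_div_iff₀ (by positivity)]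
          linarith
        unfold bb'
        rw [h9, h2]
        ring
      · have h9 := (stp'_supp h2).2
        rw [div_lt_one (by positivity)] at h9
        linarith
    constructor
    · rw [lt_abs]
      left
      linarith
    · rw [abs_lt]
      constructor <;> linarith

lemma bb'_le {s w : ℝ} (hw : 0 < w) (hs : w ≤ s) (t : ℝ) : |bb' s w t| ≤ 1 / w := by
  have a1 := stp'_nn ((t - (s - w)) / (2 * w))
  have a2 := stp'_le ((t - (s - w)) / (2 * w))
  have a3 := stp'_nn ((-t - (s - w)) / (2 * w))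
  have a4 := stp'_le ((-t - (s - w)) / (2 * w))
  have a5 := stp_nn ((t - (s - w)) / (2 * w))
  have a6 := stp_le ((t - (s - w)) / (2 * w))
  have a7 := stp_nn ((-t - (s - w)) / (2 * w))
  have a8 := stp_le ((-t - (s - w)) / (2 * w))
  have e : (2 : ℝ) / (2 * w) * 1 = 1 / w := by
    field_simp
  unfold bb'
  rcases le_total 0 t with ht | ht
  · have h1 : (-t - (s - w)) / (2 * w) ≤ 0 := by
      apply div_nonpos_of_nonpos_of_nonneg _ (by positivity)
      linarith
    rw [stp'_left h1, stp_left h1, zero_div, mul_zero, add_zero, sub_zero, mul_one, abs_neg,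
      abs_of_nonneg (by positivity), ← e, mul_one]
    gcongr
  · have h1 : (t - (s - w)) / (2 * w) ≤ 0 := by
      apply div_nonpos_of_nonpos_of_nonneg _ (by positivity)
      linarith
    rw [stp'_left h1, stp_left h1, zero_div, neg_zero, zero_mul, zero_add, sub_zero, one_mul,
      abs_of_nonneg (by positivity), ← e, mul_one]
    gcongr

/-- the cut-off function of the cube -/
noncomputable def ch (x : V) (s w : ℝ) (y : V) : ℝ :=
  bb s w (y 0 - x 0) * bb s w (y 1 - x 1) * bb s w (y 2 - x 2)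

lemma ch_c1 (x : V) (s w : ℝ) : ContDiff ℝ 1 (ch x s w) := by
  have h : ∀ i : Fin 3, ContDiff ℝ 1 fun y : V => bb s w (y i - x i) := fun i =>
    (bb_c1 s w).comp ((contDiff_apply ℝ ℝ i).sub contDiff_const)
  exact ((h 0).mul (h 1)).mul (h 2)

lemma bi_hd (x : V) (s w : ℝ) (i : Fin 3) (y : V) :
    HasFDerivAt (fun y : V => bb s w (y i - x i))
      (bb' s w (y i - x i) • (ContinuousLinearMap.proj i : V →L[ℝ] ℝ)) y := by
  have h1 : HasFDerivAt (fun y : V => y i - x i) (ContinuousLinearMap.proj i : V →L[ℝ] ℝ) y :=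
    ((ContinuousLinearMap.proj i : V →L[ℝ] ℝ).hasFDerivAt).sub_const (x i)
  exact HasDerivAt.comp_hasFDerivAt (f := fun y : V => y i - x i) y
    (bb_deriv s w (y i - x i)) h1

lemma ch_fd (x : V) (s w : ℝ) (y n : V) : fderiv ℝ (ch x s w) y n =
    bb' s w (y 0 - x 0) * n 0 * (bb s w (y 1 - x 1) * bb s w (y 2 - x 2))
      + bb' s w (y 1 - x 1) * n 1 * (bb s w (y 0 - x 0) * bb s w (y 2 - x 2))
      + bb' s w (y 2 - x 2) * n 2 * (bb s w (y 0 - x 0) * bb s w (y 1 - x 1)) := by
  have h : HasFDerivAt (ch x s w) _ y :=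
    ((bi_hd x s w 0 y).fun_mul (bi_hd x s w 1 y)).fun_mul (bi_hd x s w 2 y)
  rw [h.fderiv]
  simp only [add_apply, smul_apply,
    ContinuousLinearMap.proj_apply, smul_eq_mul]
  ring

lemma ch_nn (x : V) (s w : ℝ) (y : V) : 0 ≤ ch x s w y :=
  mul_nonneg (mul_nonneg (bb_nn _ _ _) (bb_nn _ _ _)) (bb_nn _ _ _)

lemma ch_le (x : V) (s w : ℝ) (y : V) : ch x s w y ≤ 1 :=
  mul_le_one₀ (mul_le_one₀ (bb_le _ _ _) (bb_nn _ _ _) (bb_le _ _ _)) (bb_nn _ _ _) (bb_le _ _ _)

lemma ch_one {x : V} {s w : ℝ} (hw : 0 < w) {y : V} (h : ‖y - x‖ ≤ s - w) : ch x s w y = 1 := by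
  have h1 : ∀ i, bb s w (y i - x i) = 1 := fun i =>
    bb_one hw (((norm_le_pi_norm (y - x) i)).trans h)
  unfold ch
  rw [h1, h1, h1]
  norm_num

lemma ch_supp {x : V} {s w : ℝ} (hw : 0 < w) (hs : 0 < s) {y : V} (h : ch x s w y ≠ 0) :
    ‖y - x‖ ≤ s + w := by
  have h2 := bb_lt hw (right_ne_zero_of_mul h)
  have h1 := bb_lt hw (right_ne_zero_of_mul (left_ne_zero_of_mul h))
  have h0 := bb_lt hw (left_ne_zero_of_mul (left_ne_zero_of_mul h))
  rw [pi_norm_le_iff_of_nonneg (by positivity)]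
  intro i
  fin_cases i
  · exact h0.le
  · exact h1.le
  · exact h2.le

lemma ch_fd_le {x : V} {s w : ℝ} (hw : 0 < w) (hs : w ≤ s) (y n : V) :
    |fderiv ℝ (ch x s w) y n| ≤ 2 / w * len n := by
  rw [ch_fd]
  have key : ∀ i : Fin 3, ∀ p q : ℝ, 0 ≤ p → p ≤ 1 → 0 ≤ q → q ≤ 1 →
      |bb' s w (y i - x i) * n i * (p * q)| ≤ 1 / w * |n i| := by
    intro i p q hp hp1 hq hq1
    rw [abs_mul, abs_mul, abs_of_nonneg (mul_nonneg hp hq)]
    have h1 := bb'_le hw hs (y i - x i)
    calc |bb' s w (y i - x i)| * |n i| * (p * q) ≤ 1 / w * |n i| * (1 * 1) := by gcongr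
      _ = _ := by ring
  have h0 := key 0 _ _ (bb_nn s w (y 1 - x 1)) (bb_le s w (y 1 - x 1)) (bb_nn s w (y 2 - x 2))
    (bb_le s w (y 2 - x 2))
  have h1 := key 1 _ _ (bb_nn s w (y 0 - x 0)) (bb_le s w (y 0 - x 0)) (bb_nn s w (y 2 - x 2))
    (bb_le s w (y 2 - x 2))
  have h2 := key 2 _ _ (bb_nn s w (y 0 - x 0)) (bb_le s w (y 0 - x 0)) (bb_nn s w (y 1 - x 1))
    (bb_le s w (y 1 - x 1))
  have h3 : |n 0| + |n 1| + |n 2| ≤ 2 * len n := by
    refine le_of_abs_le (abs_le_of_sq_le_sq ?_ (by have := len_nonneg n; positivity))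
    rw [mul_pow, len_sq, ← sq_abs (n 0), ← sq_abs (n 1), ← sq_abs (n 2)]
    nlinarith [sq_nonneg (|n 0| - |n 1|), sq_nonneg (|n 0| - |n 2|), sq_nonneg (|n 1| - |n 2|),
      sq_nonneg (|n 0|), sq_nonneg (|n 1|), sq_nonneg (|n 2|)]
  refine (abs_add_le _ _).trans ((add_le_add ((abs_add_le _ _).trans (add_le_add h0 h1)) h2).trans ?_)
  calc 1 / w * |n 0| + 1 / w * |n 1| + 1 / w * |n 2| = 1 / w * (|n 0| + |n 1| + |n 2|) := by ring
    _ ≤ 1 / w * (2 * len n) := by gcongr
    _ = 2 / w * len n := by ring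

lemma ch_fd_supp {x : V} {s w : ℝ} (hw : 0 < w) (hs : 0 < s) {y n : V}
    (h : fderiv ℝ (ch x s w) y n ≠ 0) : y ∈ Shell x s w := by
  rw [ch_fd] at h
  have key : ∀ i j k : Fin 3, (∀ l : Fin 3, l = i ∨ l = j ∨ l = k) →
      bb' s w (y i - x i) * n i * (bb s w (y j - x j) * bb s w (y k - x k)) ≠ 0 →
      y ∈ Shell x s w := by
    intro i j k hl h1
    have h2 := bb'_supp hw (left_ne_zero_of_mul (left_ne_zero_of_mul h1))
    have h3 := bb_lt hw (left_ne_zero_of_mul (right_ne_zero_of_mul h1))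
    have h4 := bb_lt hw (right_ne_zero_of_mul (right_ne_zero_of_mul h1))
    have h5 : ‖y - x‖ ≤ s + w := by
      rw [pi_norm_le_iff_of_nonneg (by positivity)]
      intro l
      rcases hl l with rfl | rfl | rfl
      · exact h2.2.le
      · exact h3.le
      · exact h4.le
    have h6 : |y i - x i| ≤ ‖y - x‖ := norm_le_pi_norm (y - x) i
    have h7 := h2.1
    change |‖y - x‖ - s| ≤ w
    rw [abs_le]
    constructor <;> linarith
  by_cases h0 : bb' s w (y 0 - x 0) * n 0 * (bb s w (y 1 - x 1) * bb s w (y 2 - x 2)) = 0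
  · by_cases h1 : bb' s w (y 1 - x 1) * n 1 * (bb s w (y 0 - x 0) * bb s w (y 2 - x 2)) = 0
    · rw [h0, h1, zero_add, zero_add] at h
      exact key 2 0 1 (by decide) h
    · exact key 1 0 2 (by decide) h1
  · exact key 0 1 2 (by decide) h0

/-! ### VL-5 -/

lemma shell_closed (x : V) (s w : ℝ) : IsClosed (Shell x s w) :=
  isClosed_le (by fun_prop) continuous_const

lemma shell_sub (x : V) {s w R : ℝ} (h : s + w ≤ R) : Shell x s w ⊆ closedBall x R := by
  intro y hy
  have h1 : |‖y - x‖ - s| ≤ w := hy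
  have h2 := (abs_le.1 h1).2
  rw [mem_closedBall, dist_eq_norm]
  linarith

theorem stmFC : StmFC := by
  intro κ ρ R r s w x f m W g hκ hκ1 hρ h hr hrs hw hws hsR
  have hs : 0 < s := by linarith
  have hκr : 0 < κ * r := by positivity
  set F : V → ℝ := fun y => stp (qT κ ρ g x r y) * stp (qP κ ρ g x r y) * ch x s w y with hF
  have cT : ContDiff ℝ 1 fun y => stp (qT κ ρ g x r y) := stp_c1.comp (qT_c1 h.gs κ hρ x r)
  have cP : ContDiff ℝ 1 fun y => stp (qP κ ρ g x r y) := stp_c1.comp (qP_c1 h.gs κ hρ x r)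
  have cC := ch_c1 x s w
  have cU := uu_c1 h.gs κ hρ x
  have hFc : ContDiff ℝ 1 F := (cT.mul cP).mul cC
  have hFd : ∀ y, fderiv ℝ F y (W y) = stp (qT κ ρ g x r y) * stp (qP κ ρ g x r y) *
        fderiv ℝ (ch x s w) y (W y)
      + ch x s w y * (stp (qT κ ρ g x r y) *
        (stp' (qP κ ρ g x r y) / (κ * r / 64) * fderiv ℝ (uu κ ρ g x) y (W y))
        + stp (qP κ ρ g x r y) *
        (stp' (qT κ ρ g x r y) / (κ * r / 16) * fderiv ℝ (ww κ ρ g x) y (W y))) := by
    intro y
    have h1 : HasFDerivAt F _ y := ((TT_hd h.gs κ hρ x r y).fun_mul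
      (PS_hd h.gs κ hρ x r y)).fun_mul (cC.differentiable one_ne_zero y).hasFDerivAt
    rw [h1.fderiv]
    rfl
  have hFs : ∀ y, F y ≠ 0 → y ∈ closedBall x (s + w) := by
    intro y hy
    rw [mem_closedBall, dist_eq_norm]
    exact ch_supp hw hs (right_ne_zero_of_mul hy)
  have h0 : ∫ y in closedBall x R, fderiv ℝ F y (W y) = 0 := h.wd.div F hFc (ts_sub hsR hFs)
  -- the remainder
  set E : V → ℝ := fun y => ch x s w y * (stp (qP κ ρ g x r y) *
      (stp' (qT κ ρ g x r y) / (κ * r / 16) * m y)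
      + stp (qT κ ρ g x r y) * (stp' (qP κ ρ g x r y) / (κ * r / 64) * m y)) with hE
  have cT' : Continuous fun y => stp' (qT κ ρ g x r y) :=
    stp'_cont.comp (qT_c1 h.gs κ hρ x r).continuous
  have cP' : Continuous fun y => stp' (qP κ ρ g x r y) :=
    stp'_cont.comp (qP_c1 h.gs κ hρ x r).continuous
  have hEc : Continuous E := cC.continuous.mul
    ((cP.continuous.mul ((cT'.div_const _).mul h.mc)).add
      (cT.continuous.mul ((cP'.div_const _).mul h.mc)))
  have hE1 : ∫ y in closedBall x R, E y ≤ ∫ y in closedBall x (s + w), 256 / (κ * r) * m y := by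
    refine int_le_small hEc (h.mc.const_mul _) hsR ?_ ?_
    · intro y _
      have a1 := stp_nn (qP κ ρ g x r y)
      have a2 := stp_le (qP κ ρ g x r y)
      have a4 := stp'_nn (qT κ ρ g x r y)
      have a5 := stp'_le (qT κ ρ g x r y)
      have a6 := stp'_nn (qP κ ρ g x r y)
      have a7 := stp'_le (qP κ ρ g x r y)
      have a8 := stp_nn (qT κ ρ g x r y)
      have a9 := stp_le (qT κ ρ g x r y)
      have a10 := h.m0 y
      have a11 := ch_nn x s w y
      have a12 := ch_le x s w y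
      calc E y ≤ 1 * (1 * (2 / (κ * r / 16) * m y) + 1 * (2 / (κ * r / 64) * m y)) := by
            simp only [hE]
            gcongr
        _ = 160 / (κ * r) * m y := by
            field_simp
            ring
        _ ≤ 256 / (κ * r) * m y := by
            gcongr
            norm_num
    · intro y _ hy2
      apply le_of_eq
      by_contra hc
      apply hy2
      rw [mem_closedBall, dist_eq_norm]
      exact ch_supp hw hs (left_ne_zero_of_mul hc)
  -- the flux through the surface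
  set G : V → ℝ := fun y => stp (qT κ ρ g x r y) * stp (qP κ ρ g x r y) *
        |fderiv ℝ (ch x s w) y (W y)| with hG
  have hGc : Continuous G := (cT.continuous.mul cP.continuous).mul (fdW_cont cC h.wd.cont).abs
  have hM : MeasurableSet (Shell x s w ∩ {y | 0 < uu κ ρ g x y}) :=
    (shell_closed x s w).measurableSet.inter (isOpen_lt continuous_const cU.continuous).measurableSet
  have hG1 : ∫ y in closedBall x R, G y
      ≤ ∫ y in Shell x s w ∩ {y | 0 < uu κ ρ g x y}, 2 / w * f y := by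
    have e1 : ∫ y in Shell x s w ∩ {y | 0 < uu κ ρ g x y}, 2 / w * f y
        = ∫ y in closedBall x R, (Shell x s w ∩ {y | 0 < uu κ ρ g x y}).indicator
          (fun y => 2 / w * f y) y := by
      rw [setIntegral_indicator hM, inter_eq_right.2 (inter_subset_left.trans (shell_sub x hsR))]
    rw [e1]
    refine setIntegral_mono_on (int_cont hGc x R)
      ((int_cont (h.fc.const_mul (2 / w)) x R).indicator hM)
      isClosed_closedBall.measurableSet fun y hy => ?_
    by_cases hy2 : y ∈ Shell x s w ∩ {y | 0 < uu κ ρ g x y}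
    · rw [indicator_of_mem hy2]
      have a1 := stp_nn (qP κ ρ g x r y)
      have a2 := stp_le (qP κ ρ g x r y)
      have a8 := stp_nn (qT κ ρ g x r y)
      have a9 := stp_le (qT κ ρ g x r y)
      calc G y ≤ 1 * 1 * (2 / w * len (W y)) := by
            simp only [hG]
            gcongr
            exact ch_fd_le hw (by linarith) y (W y)
        _ ≤ 2 / w * f y := by
            rw [one_mul, one_mul]
            gcongr
            exact h.up y hy
    · rw [indicator_of_notMem hy2]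
      apply le_of_eq
      by_contra hc
      apply hy2
      refine ⟨ch_fd_supp hw hs (n := W y) fun hz => right_ne_zero_of_mul hc (by rw [hz, abs_zero]), ?_⟩
      have h2 : stp (qP κ ρ g x r y) ≠ 0 := right_ne_zero_of_mul (left_ne_zero_of_mul hc)
      have h3 := qP_pos hκ hr (stp_pos h2)
      change 0 < uu κ ρ g x y
      linarith
  -- the pointwise inequality
  have key : ∀ y ∈ closedBall x R, Pool.Agent.Q85.VL.pr κ ρ g x W m r y
      ≤ (fderiv ℝ F y (W y) + G y) + E y := by
    intro y hy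
    have e1 : Pool.Agent.Q85.VL.pr κ ρ g x W m r y
        = ch x s w y * Pool.Agent.Q85.VL.pr κ ρ g x W m r y := by
      by_cases hp : Pool.Agent.Q85.VL.pr κ ρ g x W m r y = 0
      · rw [hp, mul_zero]
      · have h1 := pr_supp (ρ := ρ) (g := g) (x := x) (W := W) (m := m) hκ hr hp
        have h2 := in_ball' hκ hr h1.1 h1.2.2
        rw [ch_one hw (by linarith), one_mul]
    rw [e1, hFd, pr_eq]
    simp only [hE, hG]
    have a1 := stp_nn (qP κ ρ g x r y)
    have a4 := stp'_nn (qT κ ρ g x r y)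
    have a8 := stp_nn (qT κ ρ g x r y)
    have a11 := ww_pos h hκ hρ hy
    have a13 := ch_nn x s w y
    obtain ⟨U, hU⟩ : ∃ U, U = fderiv ℝ (uu κ ρ g x) y (W y) := ⟨_, rfl⟩
    obtain ⟨Z, hZ⟩ : ∃ Z, Z = fderiv ℝ (ww κ ρ g x) y (W y) := ⟨_, rfl⟩
    obtain ⟨D, hD⟩ : ∃ D, D = fderiv ℝ (ch x s w) y (W y) := ⟨_, rfl⟩
    rw [← hU, ← hD]
    rw [← hZ] at a11 ⊢
    have b1 : 0 ≤ ch x s w y * (stp (qP κ ρ g x r y) *
        (stp' (qT κ ρ g x r y) / (κ * r / 16) * (Z + m y))) := by positivity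
    have b2 : 0 ≤ stp (qT κ ρ g x r y) * stp (qP κ ρ g x r y) * (|D| + D) := by
      have : 0 ≤ |D| + D := by
        have := neg_abs_le D
        linarith
      positivity
    linarith [b1, b2]
  have i1 : IntegrableOn (fun y => fderiv ℝ F y (W y)) (closedBall x R) :=
    int_cont (fdW_cont hFc h.wd.cont) x R
  have i2 := int_cont hGc x R
  have i3 := int_cont (pr_cont h hρ r) x R
  have i4 := int_cont hEc x R
  have h1 : AA κ ρ R g x W m r ≤ ∫ y in closedBall x R, ((fderiv ℝ F y (W y) + G y) + E y) :=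
    setIntegral_mono_on i3 ((i1.add i2).add i4) isClosed_closedBall.measurableSet key
  rw [int_split i1 i2 i4, h0, zero_add] at h1
  rw [integral_const_mul] at hE1 hG1
  linarith

end Pool.Agent.Run7.h32.VL
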