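import Pool.Agent.Run7.h32.VL.Bas

/-!
Project VL, statements VL-2, VL-3, VL-4 (`StmUB`, `StmCmp`, `StmLB`).
-/

set_option autoImplicit false

open MeasureTheory Set Metric Filter Topology
open scoped ContDiff
open H459R3.NS Pool.Agent.W268.NS Pool.Agent.Q67.VD

namespace Pool.Agent.Run7.h32.VL

open Pool.Agent.Q85.VL
open Pool.Agent.Q151.CC (WD)

lemma int_cont {f : V → ℝ} (hf : Continuous f) (x : V) (R : ℝ) :
    IntegrableOn f (closedBall x R) :=
  hf.continuousOn.integrableOn_compact (isCompact_closedBall x R)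

lemma int_split {a b c : V → ℝ} {s : Set V} (ha : IntegrableOn a s) (hb : IntegrableOn b s)
    (hc : IntegrableOn c s) :
    ∫ y in s, ((a y + b y) + c y) = (∫ y in s, a y) + (∫ y in s, b y) + ∫ y in s, c y := by
  have h1 : IntegrableOn (fun y => a y + b y) s := ha.add hb
  rw [integral_add h1 hc, integral_add ha hb]

variable {κ ρ R : ℝ} {x : V} {f m : V → ℝ} {W : V → V} {g : V → ℝ}

/-! ### derivatives -/

lemma fnn (h : LF κ R x f m W g) {y : V} (hy : y ∈ closedBall x R) : 0 ≤ f y :=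
  (len_nonneg _).trans (h.up y hy)

lemma ds_c1 (x : V) (hρ : 0 < ρ) : ContDiff ℝ 1 (ds x ρ) := (ds_smooth x hρ).of_le (by norm_cast)

lemma uu_c1 (hg : ContDiff ℝ 1 g) (κ : ℝ) (hρ : 0 < ρ) (x : V) : ContDiff ℝ 1 (uu κ ρ g x) := by
  unfold uu
  exact (hg.sub contDiff_const).sub (contDiff_const.mul (ds_c1 x hρ))

lemma ww_c1 (hg : ContDiff ℝ 1 g) (κ : ℝ) (hρ : 0 < ρ) (x : V) : ContDiff ℝ 1 (ww κ ρ g x) := by
  unfold ww
  exact (hg.sub contDiff_const).sub (contDiff_const.mul (ds_c1 x hρ))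

lemma uu_fd (hg : ContDiff ℝ 1 g) (κ : ℝ) (hρ : 0 < ρ) (x y n : V) :
    fderiv ℝ (uu κ ρ g x) y n = fderiv ℝ g y n - κ / 2 * fderiv ℝ (ds x ρ) y n := by
  have h1 := (hg.differentiable one_ne_zero y).hasFDerivAt
  have h2 := ((ds_c1 x hρ).differentiable one_ne_zero y).hasFDerivAt
  have h : HasFDerivAt (uu κ ρ g x) _ y := (h1.sub_const (g x)).fun_sub (h2.const_mul (κ / 2))
  rw [h.fderiv]
  rfl

lemma ww_fd (hg : ContDiff ℝ 1 g) (κ : ℝ) (hρ : 0 < ρ) (x y n : V) :
    fderiv ℝ (ww κ ρ g x) y n = fderiv ℝ g y n - 3 * κ / 4 * fderiv ℝ (ds x ρ) y n := by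
  have h1 := (hg.differentiable one_ne_zero y).hasFDerivAt
  have h2 := ((ds_c1 x hρ).differentiable one_ne_zero y).hasFDerivAt
  have h : HasFDerivAt (ww κ ρ g x) _ y := (h1.sub_const (g x)).fun_sub (h2.const_mul (3 * κ / 4))
  rw [h.fderiv]
  rfl

lemma uw (κ ρ : ℝ) (g : V → ℝ) (x y : V) : uu κ ρ g x y = ww κ ρ g x y + κ / 4 * ds x ρ y := by
  unfold uu ww
  ring

lemma ds_fd (hρ : 0 < ρ) (x y n : V) : |fderiv ℝ (ds x ρ) y n| ≤ len n :=
  fderiv_le_len ((ds_c1 x hρ).differentiable one_ne_zero y) (ds_lip x hρ) n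

section bd

variable (h : LF κ R x f m W g) (hκ : 0 < κ) (hκ1 : κ ≤ 1) (hρ : 0 < ρ) {y : V}
  (hy : y ∈ closedBall x R)
include h hρ

lemma g_fd (y n : V) : |fderiv ℝ g y n| ≤ len n :=
  fderiv_le_len (h.gs.differentiable one_ne_zero y) h.lip n

include hκ hy

lemma uu_lo : κ / 2 * f y ≤ fderiv ℝ (uu κ ρ g x) y (W y) + m y := by
  rw [uu_fd h.gs κ hρ]
  have h1 := h.lo y hy
  have h2 := (abs_le.1 (ds_fd hρ x y (W y))).2
  have h3 := h.up y hy
  have h4 : κ / 2 * fderiv ℝ (ds x ρ) y (W y) ≤ κ / 2 * f y := by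
    gcongr
    exact h2.trans h3
  linarith

lemma uu_pos : 0 ≤ fderiv ℝ (uu κ ρ g x) y (W y) + m y := by
  have h1 := uu_lo h hκ hρ hy
  have h2 := fnn h hy
  have : 0 ≤ κ / 2 * f y := by positivity
  linarith

lemma ww_pos : 0 ≤ fderiv ℝ (ww κ ρ g x) y (W y) + m y := by
  rw [ww_fd h.gs κ hρ]
  have h1 := h.lo y hy
  have h2 := (abs_le.1 (ds_fd hρ x y (W y))).2
  have h3 := h.up y hy
  have h4 : 3 * κ / 4 * fderiv ℝ (ds x ρ) y (W y) ≤ 3 * κ / 4 * f y := by
    gcongr
    exact h2.trans h3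
  have h5 := fnn h hy
  have : 0 ≤ κ / 4 * f y := by positivity
  linarith

include hκ1

lemma uu_up : |fderiv ℝ (uu κ ρ g x) y (W y)| ≤ 2 * f y := by
  rw [uu_fd h.gs κ hρ]
  have h1 := g_fd h hρ y (W y)
  have h2 := ds_fd hρ x y (W y)
  have h3 := h.up y hy
  have h4 := len_nonneg (W y)
  calc |fderiv ℝ g y (W y) - κ / 2 * fderiv ℝ (ds x ρ) y (W y)|
      ≤ |fderiv ℝ g y (W y)| + |κ / 2 * fderiv ℝ (ds x ρ) y (W y)| := abs_sub _ _
    _ = |fderiv ℝ g y (W y)| + κ / 2 * |fderiv ℝ (ds x ρ) y (W y)| := by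
        rw [abs_mul, abs_of_pos (by positivity : 0 < κ / 2)]
    _ ≤ len (W y) + 1 / 2 * len (W y) := by
        gcongr
    _ ≤ 2 * f y := by linarith

end bd

/-! ### the cut-off functions -/

/-- the argument of `Θ_r` -/
noncomputable def qT (κ ρ : ℝ) (g : V → ℝ) (x : V) (r : ℝ) (y : V) : ℝ :=
  (ww κ ρ g x y + κ * r / 8) / (κ * r / 16)

/-- the argument of `Ψ_r` -/
noncomputable def qP (κ ρ : ℝ) (g : V → ℝ) (x : V) (r : ℝ) (y : V) : ℝ :=
  (uu κ ρ g x y - κ * r / 64) / (κ * r / 64)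

lemma TT_eq (κ ρ : ℝ) (g : V → ℝ) (x : V) (r : ℝ) (y : V) :
    TT κ ρ g x r y = stp (qT κ ρ g x r y) := rfl

lemma PS_eq (κ ρ : ℝ) (g : V → ℝ) (x : V) (r : ℝ) (y : V) :
    PS κ ρ g x r y = stp (qP κ ρ g x r y) := rfl

lemma pr_eq (κ ρ : ℝ) (g : V → ℝ) (x : V) (W : V → V) (m : V → ℝ) (r : ℝ) (y : V) :
    Pool.Agent.Q85.VL.pr κ ρ g x W m r y = stp (qT κ ρ g x r y) *
      (stp' (qP κ ρ g x r y) / (κ * r / 64) * (fderiv ℝ (uu κ ρ g x) y (W y) + m y)) := rfl

lemma qT_c1 (hg : ContDiff ℝ 1 g) (κ : ℝ) (hρ : 0 < ρ) (x : V) (r : ℝ) :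
    ContDiff ℝ 1 (qT κ ρ g x r) := by
  unfold qT
  exact ((ww_c1 hg κ hρ x).add contDiff_const).div_const _

lemma qP_c1 (hg : ContDiff ℝ 1 g) (κ : ℝ) (hρ : 0 < ρ) (x : V) (r : ℝ) :
    ContDiff ℝ 1 (qP κ ρ g x r) := by
  unfold qP
  exact ((uu_c1 hg κ hρ x).sub contDiff_const).div_const _

/-- the derivative of `Θ_r` -/
lemma TT_hd (hg : ContDiff ℝ 1 g) (κ : ℝ) (hρ : 0 < ρ) (x : V) (r : ℝ) (y : V) :
    HasFDerivAt (fun y => stp (qT κ ρ g x r y))
      ((stp' (qT κ ρ g x r y) / (κ * r / 16)) • fderiv ℝ (ww κ ρ g x) y) y := by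
  have h1 := ((ww_c1 hg κ hρ x).differentiable one_ne_zero y).hasFDerivAt
  have h2 : HasFDerivAt (qT κ ρ g x r) ((κ * r / 16)⁻¹ • fderiv ℝ (ww κ ρ g x) y) y := by
    have h3 := (h1.add_const (κ * r / 8)).const_mul ((κ * r / 16)⁻¹)
    refine h3.congr_of_eventuallyEq (Filter.Eventually.of_forall fun z => ?_)
    simp only [qT]
    rw [div_eq_inv_mul]
  have h4 := (stp_deriv (qT κ ρ g x r y)).comp_hasFDerivAt y h2
  rw [smul_smul] at h4
  exact h4

/-- the derivative of `Ψ_r` -/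
lemma PS_hd (hg : ContDiff ℝ 1 g) (κ : ℝ) (hρ : 0 < ρ) (x : V) (r : ℝ) (y : V) :
    HasFDerivAt (fun y => stp (qP κ ρ g x r y))
      ((stp' (qP κ ρ g x r y) / (κ * r / 64)) • fderiv ℝ (uu κ ρ g x) y) y := by
  have h1 := ((uu_c1 hg κ hρ x).differentiable one_ne_zero y).hasFDerivAt
  have h2 : HasFDerivAt (qP κ ρ g x r) ((κ * r / 64)⁻¹ • fderiv ℝ (uu κ ρ g x) y) y := by
    have h3 := (h1.sub_const (κ * r / 64)).const_mul ((κ * r / 64)⁻¹)
    refine h3.congr_of_eventuallyEq (Filter.Eventually.of_forall fun z => ?_)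
    simp only [qP]
    rw [div_eq_inv_mul]
  have h4 := (stp_deriv (qP κ ρ g x r y)).comp_hasFDerivAt y h2
  rw [smul_smul] at h4
  exact h4

lemma fdW_cont {F : V → ℝ} (hF : ContDiff ℝ 1 F) (hW : Continuous W) :
    Continuous fun y => fderiv ℝ F y (W y) :=
  (hF.continuous_fderiv one_ne_zero).clm_apply hW

lemma pr_cont (h : LF κ R x f m W g) (hρ : 0 < ρ) (r : ℝ) :
    Continuous (Pool.Agent.Q85.VL.pr κ ρ g x W m r) := by
  have h1 : Continuous fun y => stp (qT κ ρ g x r y) :=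
    stp_c1.continuous.comp (qT_c1 h.gs κ hρ x r).continuous
  have h2 : Continuous fun y => stp' (qP κ ρ g x r y) :=
    stp'_cont.comp (qP_c1 h.gs κ hρ x r).continuous
  have h3 : Continuous fun y => fderiv ℝ (uu κ ρ g x) y (W y) :=
    fdW_cont (uu_c1 h.gs κ hρ x) h.wd.cont
  have h4 : Continuous fun y => stp (qT κ ρ g x r y) *
      (stp' (qP κ ρ g x r y) / (κ * r / 64) * (fderiv ℝ (uu κ ρ g x) y (W y) + m y)) :=
    h1.mul ((h2.div_const _).mul (h3.add h.mc))
  exact h4

/-! ### supports -/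

section supp

variable {r : ℝ} (hκ : 0 < κ) (hr : 0 < r) {y : V}
include hκ hr

lemma qT_pos (h : 0 < qT κ ρ g x r y) : -(κ * r / 8) < ww κ ρ g x y := by
  unfold qT at h
  have h1 : 0 < κ * r / 16 := by positivity
  have := (div_pos_iff_of_pos_right h1).1 h
  linarith

lemma qP_pos (h : 0 < qP κ ρ g x r y) : κ * r / 64 < uu κ ρ g x y := by
  unfold qP at h
  have h1 : 0 < κ * r / 64 := by positivity
  have := (div_pos_iff_of_pos_right h1).1 h
  linarith

lemma qP_lt (h : qP κ ρ g x r y < 1) : uu κ ρ g x y < κ * r / 32 := by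
  unfold qP at h
  have h1 : 0 < κ * r / 64 := by positivity
  rw [div_lt_one h1] at h
  linarith

lemma in_ball' (h1 : -(κ * r / 8) < ww κ ρ g x y) (h2 : uu κ ρ g x y < κ * r / 32) :
    ‖y - x‖ < 5 / 8 * r := by
  rw [uw] at h2
  have h3 : κ / 4 * ds x ρ y < κ / 4 * (5 / 8 * r) := by linarith
  have h4 : ds x ρ y < 5 / 8 * r := lt_of_mul_lt_mul_left h3 (by positivity)
  exact (norm_le_ds x ρ y).trans_lt h4

lemma in_ball (h1 : -(κ * r / 8) < ww κ ρ g x y) (h2 : uu κ ρ g x y < κ * r / 32) :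
    y ∈ closedBall x r := by
  have := in_ball' hκ hr h1 h2
  rw [mem_closedBall, dist_eq_norm]
  linarith

end supp

/-! ### integrals over cubes -/

lemma int_le_small {φ ψ : V → ℝ} {s R : ℝ} {x : V} (hφ : Continuous φ) (hψ : Continuous ψ)
    (hs : s ≤ R) (h1 : ∀ y ∈ closedBall x s, φ y ≤ ψ y)
    (h2 : ∀ y ∈ closedBall x R, y ∉ closedBall x s → φ y ≤ 0) :
    ∫ y in closedBall x R, φ y ≤ ∫ y in closedBall x s, ψ y := by
  have h3 : ∫ y in closedBall x s, ψ y = ∫ y in closedBall x R,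
      (closedBall x s).indicator ψ y := by
    rw [setIntegral_indicator isClosed_closedBall.measurableSet,
      inter_eq_right.2 (closedBall_subset_closedBall hs)]
  rw [h3]
  refine setIntegral_mono_on (int_cont hφ x R)
    ((int_cont hψ x R).indicator isClosed_closedBall.measurableSet)
    isClosed_closedBall.measurableSet fun y hy => ?_
  by_cases hy2 : y ∈ closedBall x s
  · rw [indicator_of_mem hy2]
    exact h1 y hy2
  · rw [indicator_of_notMem hy2]
    exact h2 y hy hy2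

lemma small_le_int {φ ψ : V → ℝ} {s R : ℝ} {x : V} (hφ : Continuous φ) (hψ : Continuous ψ)
    (hs : s ≤ R) (h1 : ∀ y ∈ closedBall x s, ψ y ≤ φ y)
    (h2 : ∀ y ∈ closedBall x R, 0 ≤ φ y) :
    ∫ y in closedBall x s, ψ y ≤ ∫ y in closedBall x R, φ y := by
  have h3 : ∫ y in closedBall x s, ψ y = ∫ y in closedBall x R,
      (closedBall x s).indicator ψ y := by
    rw [setIntegral_indicator isClosed_closedBall.measurableSet,
      inter_eq_right.2 (closedBall_subset_closedBall hs)]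
  rw [h3]
  refine setIntegral_mono_on
    ((int_cont hψ x R).indicator isClosed_closedBall.measurableSet) (int_cont hφ x R)
    isClosed_closedBall.measurableSet fun y hy => ?_
  by_cases hy2 : y ∈ closedBall x s
  · rw [indicator_of_mem hy2]
    exact h1 y hy2
  · rw [indicator_of_notMem hy2]
    exact h2 y hy

lemma ts_sub {F : V → ℝ} {x : V} {s R : ℝ} (hs : s ≤ R) (h : ∀ y, F y ≠ 0 → y ∈ closedBall x s) :
    tsupport F ⊆ closedBall x R := by
  refine closure_minimal (fun y hy => ?_) isClosed_closedBall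
  exact closedBall_subset_closedBall hs (h y hy)

/-- `0 ≤ pr` -/
lemma pr_nn (h : LF κ R x f m W g) (hκ : 0 < κ) (hρ : 0 < ρ) {r : ℝ} (hr : 0 < r) {y : V}
    (hy : y ∈ closedBall x R) : 0 ≤ Pool.Agent.Q85.VL.pr κ ρ g x W m r y := by
  rw [pr_eq]
  have h1 := stp_nn (qT κ ρ g x r y)
  have h2 := stp'_nn (qP κ ρ g x r y)
  have h3 := uu_pos h hκ hρ hy
  positivity

lemma AA_nn (h : LF κ R x f m W g) (hκ : 0 < κ) (hρ : 0 < ρ) {r : ℝ} (hr : 0 < r) :
    0 ≤ AA κ ρ R g x W m r :=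
  setIntegral_nonneg isClosed_closedBall.measurableSet fun _ hy => pr_nn h hκ hρ hr hy

/-- the support of `pr` -/
lemma pr_supp (hκ : 0 < κ) {r : ℝ} (hr : 0 < r) {y : V}
    (hy : Pool.Agent.Q85.VL.pr κ ρ g x W m r y ≠ 0) :
    -(κ * r / 8) < ww κ ρ g x y ∧ κ * r / 64 < uu κ ρ g x y ∧ uu κ ρ g x y < κ * r / 32 := by
  rw [pr_eq] at hy
  have h1 : stp (qT κ ρ g x r y) ≠ 0 := left_ne_zero_of_mul hy
  have h2 : stp' (qP κ ρ g x r y) ≠ 0 := by
    intro hc
    rw [hc] at hy
    simp at hy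
  have h3 := stp'_supp h2
  exact ⟨qT_pos hκ hr (stp_pos h1), qP_pos hκ hr h3.1, qP_lt hκ hr h3.2⟩

/-! ### VL-2 -/

theorem stmUB : StmUB := by
  intro κ ρ R r x f m W g hκ hκ1 hρ h hr hrR
  rw [← integral_const_mul]
  unfold AA
  refine int_le_small (pr_cont h hρ r) ((((h.fc.const_mul 2).add h.mc)).const_mul _) hrR ?_ ?_
  · intro y hy
    have hyR : y ∈ closedBall x R := closedBall_subset_closedBall hrR hy
    rw [pr_eq]
    have h1 := stp_nn (qT κ ρ g x r y)
    have h2 := stp_le (qT κ ρ g x r y)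
    have h3 := stp'_nn (qP κ ρ g x r y)
    have h4 := stp'_le (qP κ ρ g x r y)
    have h5 := uu_pos h hκ hρ hyR
    have h6 := (abs_le.1 (uu_up h hκ hκ1 hρ hyR)).2
    have h7 : 0 < κ * r / 64 := by positivity
    calc stp (qT κ ρ g x r y) *
          (stp' (qP κ ρ g x r y) / (κ * r / 64) * (fderiv ℝ (uu κ ρ g x) y (W y) + m y))
        ≤ 1 * (2 / (κ * r / 64) * (2 * f y + m y)) := by gcongr
      _ = 128 / (κ * r) * (2 * f y + m y) := by
          field_simp
          ring
  · intro y _ hy2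
    by_contra hc
    push Not at hc
    have h1 := pr_supp (ρ := ρ) (g := g) (x := x) (W := W) (m := m) hκ hr hc.ne'
    exact hy2 (in_ball hκ hr h1.1 h1.2.2)

/-! ### VL-3 -/

lemma qT_le {r r' : ℝ} (hκ : 0 < κ) (hr' : 0 < r') (hrr : r' ≤ r) (y : V) :
    stp (qT κ ρ g x r' y) ≤ stp (qT κ ρ g x r y) := by
  have hr : 0 < r := hr'.trans_le hrr
  rcases le_total 0 (ww κ ρ g x y) with hw | hw
  · have h1 : 1 ≤ qT κ ρ g x r y := by
      unfold qT
      rw [le_div_iff₀ (by positivity)]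
      have : 0 < κ * r := by positivity
      linarith
    rw [stp_right h1]
    exact stp_le _
  · refine stp_mono ?_
    have e1 : ∀ s : ℝ, 0 < s → qT κ ρ g x s y = 16 * ww κ ρ g x y / (κ * s) + 2 := by
      intro s hs
      unfold qT
      field_simp
      ring
    rw [e1 r' hr', e1 r hr]
    have h1 : κ * r' ≤ κ * r := by gcongr
    have h2 : 0 < κ * r' := by positivity
    have h3 : 0 < κ * r := by positivity
    have h4 : 16 * ww κ ρ g x y / (κ * r') ≤ 16 * ww κ ρ g x y / (κ * r) := by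
      rw [div_le_div_iff₀ h2 h3]
      nlinarith
    linarith

lemma qP_ge {r r' : ℝ} (hκ : 0 < κ) (hr' : 0 < r') (hrr : r' ≤ r) (y : V) :
    stp (qP κ ρ g x r y) ≤ stp (qP κ ρ g x r' y) := by
  have hr : 0 < r := hr'.trans_le hrr
  rcases le_total (uu κ ρ g x y) 0 with hw | hw
  · have h1 : qP κ ρ g x r y ≤ 0 := by
      unfold qP
      apply div_nonpos_of_nonpos_of_nonneg
      · have : 0 < κ * r := by positivity
        linarith
      · positivity
    rw [stp_left h1]
    exact stp_nn _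
  · refine stp_mono ?_
    have e1 : ∀ s : ℝ, 0 < s → qP κ ρ g x s y = 64 * uu κ ρ g x y / (κ * s) - 1 := by
      intro s hs
      unfold qP
      field_simp
    rw [e1 r' hr', e1 r hr]
    have h1 : κ * r' ≤ κ * r := by gcongr
    have h2 : 0 < κ * r' := by positivity
    have h3 : 0 < κ * r := by positivity
    have h4 : 64 * uu κ ρ g x y / (κ * r) ≤ 64 * uu κ ρ g x y / (κ * r') := by
      rw [div_le_div_iff₀ h3 h2]
      nlinarith
    linarith

theorem stmCmp : StmCmp := by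
  intro κ ρ R r r' x f m W g hκ hκ1 hρ h hr' hrr hrR
  have hr : 0 < r := by linarith
  have hrr' : r' ≤ r := by linarith
  have hκr : 0 < κ * r' := by positivity
  -- the test function
  set F : V → ℝ := fun y => stp (qT κ ρ g x r' y) *
    (stp (qP κ ρ g x r' y) - stp (qP κ ρ g x r y)) with hF
  have cT : ContDiff ℝ 1 fun y => stp (qT κ ρ g x r' y) := stp_c1.comp (qT_c1 h.gs κ hρ x r')
  have cP : ∀ s, ContDiff ℝ 1 fun y => stp (qP κ ρ g x s y) := fun s =>
    stp_c1.comp (qP_c1 h.gs κ hρ x s)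
  have hFc : ContDiff ℝ 1 F := cT.mul ((cP r').sub (cP r))
  have hFd : ∀ y, fderiv ℝ F y (W y) = stp (qT κ ρ g x r' y) *
      (stp' (qP κ ρ g x r' y) / (κ * r' / 64) * fderiv ℝ (uu κ ρ g x) y (W y)
        - stp' (qP κ ρ g x r y) / (κ * r / 64) * fderiv ℝ (uu κ ρ g x) y (W y))
      + (stp (qP κ ρ g x r' y) - stp (qP κ ρ g x r y)) *
        (stp' (qT κ ρ g x r' y) / (κ * r' / 16) * fderiv ℝ (ww κ ρ g x) y (W y)) := by
    intro y
    have h1 : HasFDerivAt F _ y := (TT_hd h.gs κ hρ x r' y).fun_mul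
      ((PS_hd h.gs κ hρ x r' y).fun_sub (PS_hd h.gs κ hρ x r y))
    rw [h1.fderiv]
    rfl
  have hFs : ∀ y, F y ≠ 0 → y ∈ closedBall x r := by
    intro y hy
    have h1 : stp (qT κ ρ g x r' y) ≠ 0 := left_ne_zero_of_mul hy
    have h2 : stp (qP κ ρ g x r y) ≠ 1 := by
      intro hc
      have h3 : stp (qP κ ρ g x r' y) = 1 :=
        le_antisymm (stp_le _) (by rw [← hc]; exact qP_ge hκ hr' hrr' y)
      apply right_ne_zero_of_mul hy
      rw [h3, hc, sub_self]
    have h3 := qT_pos hκ hr' (stp_pos h1)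
    refine in_ball hκ hr ?_ (qP_lt hκ hr (stp_lt h2))
    have : κ * r' ≤ κ * r := by gcongr
    linarith
  have h0 : ∫ y in closedBall x R, fderiv ℝ F y (W y) = 0 := h.wd.div F hFc (ts_sub hrR hFs)
  -- the error
  set E : V → ℝ := fun y => (stp (qP κ ρ g x r' y) - stp (qP κ ρ g x r y)) *
      (stp' (qT κ ρ g x r' y) / (κ * r' / 16) * m y)
      + stp (qT κ ρ g x r' y) * (stp' (qP κ ρ g x r' y) / (κ * r' / 64) * m y) with hE
  have cT' : Continuous fun y => stp' (qT κ ρ g x r' y) :=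
    stp'_cont.comp (qT_c1 h.gs κ hρ x r').continuous
  have cP' : Continuous fun y => stp' (qP κ ρ g x r' y) :=
    stp'_cont.comp (qP_c1 h.gs κ hρ x r').continuous
  have hEc : Continuous E :=
    (((cP r').continuous.sub (cP r).continuous).mul ((cT'.div_const _).mul h.mc)).add
      (cT.continuous.mul ((cP'.div_const _).mul h.mc))
  have hE1 : ∫ y in closedBall x R, E y ≤ ∫ y in closedBall x r, 256 / (κ * r') * m y := by
    refine int_le_small hEc (h.mc.const_mul _) hrR ?_ ?_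
    · intro y _
      have a1 := stp_nn (qP κ ρ g x r y)
      have a2 := stp_le (qP κ ρ g x r' y)
      have a3 := qP_ge (ρ := ρ) (g := g) (x := x) hκ hr' hrr' y
      have a4 := stp'_nn (qT κ ρ g x r' y)
      have a5 := stp'_le (qT κ ρ g x r' y)
      have a6 := stp'_nn (qP κ ρ g x r' y)
      have a7 := stp'_le (qP κ ρ g x r' y)
      have a8 := stp_nn (qT κ ρ g x r' y)
      have a9 := stp_le (qT κ ρ g x r' y)
      have a10 := h.m0 y
      have b1 : (stp (qP κ ρ g x r' y) - stp (qP κ ρ g x r y)) *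
          (stp' (qT κ ρ g x r' y) / (κ * r' / 16) * m y) ≤ 1 * (2 / (κ * r' / 16) * m y) := by
        have c1 : 0 ≤ stp (qP κ ρ g x r' y) - stp (qP κ ρ g x r y) := by linarith
        gcongr
        linarith
      have b2 : stp (qT κ ρ g x r' y) * (stp' (qP κ ρ g x r' y) / (κ * r' / 64) * m y)
          ≤ 1 * (2 / (κ * r' / 64) * m y) := by gcongr
      have b3 : 1 * (2 / (κ * r' / 16) * m y) + 1 * (2 / (κ * r' / 64) * m y)
          = 160 / (κ * r') * m y := by
        field_simp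
        ring
      have b4 : 160 / (κ * r') * m y ≤ 256 / (κ * r') * m y := by
        gcongr
        norm_num
      simp only [hE]
      linarith
    · intro y _ hy2
      apply le_of_eq
      by_contra hc
      have h1 : (stp (qP κ ρ g x r' y) - stp (qP κ ρ g x r y)) *
          (stp' (qT κ ρ g x r' y) / (κ * r' / 16) * m y) ≠ 0 ∨
          stp (qT κ ρ g x r' y) * (stp' (qP κ ρ g x r' y) / (κ * r' / 64) * m y) ≠ 0 := by
        by_contra hcc
        push Not at hcc
        apply hc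
        simp only [hE]
        rw [hcc.1, hcc.2, add_zero]
      apply hy2
      rcases h1 with h1 | h1
      · have h2 : stp' (qT κ ρ g x r' y) ≠ 0 := by
          intro hz
          rw [hz] at h1
          simp at h1
        have h3 : stp (qP κ ρ g x r y) ≠ 1 := by
          intro hz
          have h4 : stp (qP κ ρ g x r' y) = 1 :=
            le_antisymm (stp_le _) (by rw [← hz]; exact qP_ge hκ hr' hrr' y)
          apply left_ne_zero_of_mul h1
          rw [h4, hz, sub_self]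
        refine in_ball hκ hr ?_ (qP_lt hκ hr (stp_lt h3))
        have h5 := qT_pos hκ hr' (stp'_supp h2).1
        have : κ * r' ≤ κ * r := by gcongr
        linarith
      · have h2 : stp (qT κ ρ g x r' y) ≠ 0 := left_ne_zero_of_mul h1
        have h3 : stp' (qP κ ρ g x r' y) ≠ 0 := by
          intro hz
          rw [hz] at h1
          simp at h1
        exact closedBall_subset_closedBall hrr'
          (in_ball hκ hr' (qT_pos hκ hr' (stp_pos h2)) (qP_lt hκ hr' (stp'_supp h3).2))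
  -- the pointwise inequality
  have key : ∀ y ∈ closedBall x R, Pool.Agent.Q85.VL.pr κ ρ g x W m r' y
      ≤ (fderiv ℝ F y (W y) + Pool.Agent.Q85.VL.pr κ ρ g x W m r y) + E y := by
    intro y hy
    rw [hFd, pr_eq, pr_eq]
    simp only [hE]
    have a3 := qP_ge (ρ := ρ) (g := g) (x := x) hκ hr' hrr' y
    have a4 := stp'_nn (qT κ ρ g x r' y)
    have a6 := stp'_nn (qP κ ρ g x r y)
    have a8 := stp_nn (qT κ ρ g x r' y)
    have a9 := qT_le (ρ := ρ) (g := g) (x := x) hκ hr' hrr' y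
    have a10 := h.m0 y
    have a11 := ww_pos h hκ hρ hy
    have a12 := uu_pos h hκ hρ hy
    obtain ⟨U, hU⟩ : ∃ U, U = fderiv ℝ (uu κ ρ g x) y (W y) := ⟨_, rfl⟩
    obtain ⟨Z, hZ⟩ : ∃ Z, Z = fderiv ℝ (ww κ ρ g x) y (W y) := ⟨_, rfl⟩
    rw [← hU] at a12 ⊢
    rw [← hZ] at a11 ⊢
    have b1 : 0 ≤ (stp (qP κ ρ g x r' y) - stp (qP κ ρ g x r y)) *
        (stp' (qT κ ρ g x r' y) / (κ * r' / 16) * (Z + m y)) := by
      have c1 : 0 ≤ stp (qP κ ρ g x r' y) - stp (qP κ ρ g x r y) := by linarith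
      positivity
    have b2 : stp (qT κ ρ g x r' y) * (stp' (qP κ ρ g x r y) / (κ * r / 64) * (U + m y))
        ≤ stp (qT κ ρ g x r y) * (stp' (qP κ ρ g x r y) / (κ * r / 64) * (U + m y)) := by
      gcongr
    have b3 : 0 ≤ stp (qT κ ρ g x r' y) * (stp' (qP κ ρ g x r y) / (κ * r / 64) * m y) := by
      positivity
    linarith [b1, b2, b3]
  have i1 : IntegrableOn (fun y => fderiv ℝ F y (W y)) (closedBall x R) :=
    int_cont (fdW_cont hFc h.wd.cont) x R
  have i2 := int_cont (pr_cont h hρ r) x R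
  have i3 := int_cont (pr_cont h hρ r') x R
  have i4 := int_cont hEc x R
  have h1 : AA κ ρ R g x W m r' ≤ ∫ y in closedBall x R,
      ((fderiv ℝ F y (W y) + Pool.Agent.Q85.VL.pr κ ρ g x W m r y) + E y) :=
    setIntegral_mono_on i3 ((i1.add i2).add i4) isClosed_closedBall.measurableSet key
  have h2 : ∫ y in closedBall x R,
      ((fderiv ℝ F y (W y) + Pool.Agent.Q85.VL.pr κ ρ g x W m r y) + E y)
      = AA κ ρ R g x W m r + ∫ y in closedBall x R, E y := by
    rw [int_split i1 i2 i4, h0, zero_add]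
    rfl
  rw [h2] at h1
  rw [integral_const_mul] at hE1
  linarith

/-! ### VL-4 -/

theorem stmLB : StmLB := by
  intro κ ρ R r x f m W g hκ hκ1 hρ h hρr hrR
  have hr : 0 < r := by
    have : 0 < 128 / κ * ρ := by positivity
    linarith
  have hρr2 : 128 * ρ ≤ κ * r := by
    rw [div_mul_eq_mul_div, div_le_iff₀ hκ] at hρr
    linarith
  have hρR : ρ ≤ R := by nlinarith
  -- the test function
  set F : V → ℝ := fun y => stp (qT κ ρ g x r y) *
    ((κ * r / 8 + uu κ ρ g x y) * (1 - stp (qP κ ρ g x r y))) with hF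
  have cT : ContDiff ℝ 1 fun y => stp (qT κ ρ g x r y) := stp_c1.comp (qT_c1 h.gs κ hρ x r)
  have cP : ContDiff ℝ 1 fun y => stp (qP κ ρ g x r y) := stp_c1.comp (qP_c1 h.gs κ hρ x r)
  have cU := uu_c1 h.gs κ hρ x
  have hFc : ContDiff ℝ 1 F := cT.mul ((contDiff_const.add cU).mul (contDiff_const.sub cP))
  have hFd : ∀ y, fderiv ℝ F y (W y) = stp (qT κ ρ g x r y) *
      ((κ * r / 8 + uu κ ρ g x y) *
        (-(stp' (qP κ ρ g x r y) / (κ * r / 64) * fderiv ℝ (uu κ ρ g x) y (W y)))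
        + (1 - stp (qP κ ρ g x r y)) * fderiv ℝ (uu κ ρ g x) y (W y))
      + (κ * r / 8 + uu κ ρ g x y) * (1 - stp (qP κ ρ g x r y)) *
        (stp' (qT κ ρ g x r y) / (κ * r / 16) * fderiv ℝ (ww κ ρ g x) y (W y)) := by
    intro y
    have hu := (cU.differentiable one_ne_zero y).hasFDerivAt
    have h1 : HasFDerivAt F _ y := (TT_hd h.gs κ hρ x r y).fun_mul
      ((hu.const_add (κ * r / 8)).fun_mul ((PS_hd h.gs κ hρ x r y).const_sub 1))
    rw [h1.fderiv]
    rfl
  have hFs : ∀ y, F y ≠ 0 → y ∈ closedBall x r := by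
    intro y hy
    have h1 : stp (qT κ ρ g x r y) ≠ 0 := left_ne_zero_of_mul hy
    have h2 : stp (qP κ ρ g x r y) ≠ 1 := by
      intro hc
      apply right_ne_zero_of_mul (right_ne_zero_of_mul hy)
      rw [hc, sub_self]
    exact in_ball hκ hr (qT_pos hκ hr (stp_pos h1)) (qP_lt hκ hr (stp_lt h2))
  have h0 : ∫ y in closedBall x R, fderiv ℝ F y (W y) = 0 := h.wd.div F hFc (ts_sub hrR hFs)
  -- the error
  set E : V → ℝ := fun y => stp (qT κ ρ g x r y) * (1 - stp (qP κ ρ g x r y)) * m y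
      + (κ * r / 8 + uu κ ρ g x y) * (1 - stp (qP κ ρ g x r y)) *
        (stp' (qT κ ρ g x r y) / (κ * r / 16) * m y) with hE
  have cT' : Continuous fun y => stp' (qT κ ρ g x r y) :=
    stp'_cont.comp (qT_c1 h.gs κ hρ x r).continuous
  have hEc : Continuous E :=
    (((cT.continuous.mul (continuous_const.sub cP.continuous)).mul h.mc).add
      (((continuous_const.add cU.continuous).mul (continuous_const.sub cP.continuous)).mul
        ((cT'.div_const _).mul h.mc)))
  -- the region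
  have lowU : ∀ y, -(κ * r / 8) < ww κ ρ g x y → 0 < κ * r / 8 + uu κ ρ g x y := by
    intro y hy
    rw [uw]
    have : 0 ≤ κ / 4 * ds x ρ y := mul_nonneg (by positivity) (ds_nn x ρ y)
    linarith
  have hE1 : ∫ y in closedBall x R, E y ≤ ∫ y in closedBall x r, 6 * m y := by
    refine int_le_small hEc (h.mc.const_mul _) hrR ?_ ?_
    · intro y _
      have a1 := stp_nn (qP κ ρ g x r y)
      have a2 := stp_le (qP κ ρ g x r y)
      have a4 := stp'_nn (qT κ ρ g x r y)
      have a5 := stp'_le (qT κ ρ g x r y)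
      have a8 := stp_nn (qT κ ρ g x r y)
      have a9 := stp_le (qT κ ρ g x r y)
      have a10 := h.m0 y
      have b1 : stp (qT κ ρ g x r y) * (1 - stp (qP κ ρ g x r y)) * m y ≤ 1 * 1 * m y := by
        have c1 : 0 ≤ 1 - stp (qP κ ρ g x r y) := by linarith
        gcongr
        linarith
      have b2 : (κ * r / 8 + uu κ ρ g x y) * (1 - stp (qP κ ρ g x r y)) *
          (stp' (qT κ ρ g x r y) / (κ * r / 16) * m y) ≤ 5 * m y := by
        by_cases c1 : stp' (qT κ ρ g x r y) = 0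
        · rw [c1]
          simp only [zero_div, zero_mul, mul_zero]
          positivity
        · by_cases c2 : stp (qP κ ρ g x r y) = 1
          · rw [c2]
            simp only [sub_self, mul_zero, zero_mul]
            positivity
          · have c3 := lowU y (qT_pos hκ hr (stp'_supp c1).1)
            have c4 := qP_lt hκ hr (stp_lt c2)
            have c5 : 0 ≤ 1 - stp (qP κ ρ g x r y) := by linarith
            calc (κ * r / 8 + uu κ ρ g x y) * (1 - stp (qP κ ρ g x r y)) *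
                (stp' (qT κ ρ g x r y) / (κ * r / 16) * m y)
                ≤ (κ * r / 8 + κ * r / 32) * 1 * (2 / (κ * r / 16) * m y) := by
                  gcongr
                  linarith
              _ = 5 * m y := by
                  field_simp
                  ring
      simp only [hE]
      linarith
    · intro y _ hy2
      apply le_of_eq
      by_contra hc
      have h3 : stp (qP κ ρ g x r y) ≠ 1 := by
        intro hz
        apply hc
        simp only [hE]
        rw [hz]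
        ring
      have h1 : 0 < qT κ ρ g x r y := by
        by_contra hz
        push Not at hz
        apply hc
        simp only [hE]
        rw [stp_left hz, stp'_left hz]
        ring
      exact hy2 (in_ball hκ hr (qT_pos hκ hr h1) (qP_lt hκ hr (stp_lt h3)))
  -- the main term
  set L : V → ℝ := fun y => stp (qT κ ρ g x r y) * (1 - stp (qP κ ρ g x r y)) * (κ / 2 * f y)
    with hL
  have hLc : Continuous L :=
    (cT.continuous.mul (continuous_const.sub cP.continuous)).mul (h.fc.const_mul _)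
  have key : ∀ y ∈ closedBall x R, L y
      ≤ (fderiv ℝ F y (W y) + 5 * κ * r / 32 * Pool.Agent.Q85.VL.pr κ ρ g x W m r y) + E y := by
    intro y hy
    rw [hFd, pr_eq]
    simp only [hE, hL]
    have a1 := stp_nn (qP κ ρ g x r y)
    have a2 := stp_le (qP κ ρ g x r y)
    have a4 := stp'_nn (qT κ ρ g x r y)
    have a6 := stp'_nn (qP κ ρ g x r y)
    have a8 := stp_nn (qT κ ρ g x r y)
    have a10 := h.m0 y
    have a11 := ww_pos h hκ hρ hy
    have a12 := uu_pos h hκ hρ hy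
    have a13 := uu_lo h hκ hρ hy
    obtain ⟨U, hU⟩ : ∃ U, U = fderiv ℝ (uu κ ρ g x) y (W y) := ⟨_, rfl⟩
    obtain ⟨Z, hZ⟩ : ∃ Z, Z = fderiv ℝ (ww κ ρ g x) y (W y) := ⟨_, rfl⟩
    rw [← hU] at a12 a13 ⊢
    rw [← hZ] at a11 ⊢
    have c5 : 0 ≤ 1 - stp (qP κ ρ g x r y) := by linarith
    -- the term with `Z`
    have b1 : 0 ≤ (κ * r / 8 + uu κ ρ g x y) * (1 - stp (qP κ ρ g x r y)) *
        (stp' (qT κ ρ g x r y) / (κ * r / 16) * (Z + m y)) := by
      by_cases c1 : stp' (qT κ ρ g x r y) = 0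
      · rw [c1]
        simp
      · have c3 := lowU y (qT_pos hκ hr (stp'_supp c1).1)
        positivity
    -- the term with `f`
    have b2 : stp (qT κ ρ g x r y) * (1 - stp (qP κ ρ g x r y)) * (κ / 2 * f y)
        ≤ stp (qT κ ρ g x r y) * (1 - stp (qP κ ρ g x r y)) * (U + m y) := by
      gcongr
    -- the term with `ψ`
    have b3 : stp (qT κ ρ g x r y) * ((κ * r / 8 + uu κ ρ g x y) *
        (stp' (qP κ ρ g x r y) / (κ * r / 64) * U)) ≤ 5 * κ * r / 32 *
          (stp (qT κ ρ g x r y) * (stp' (qP κ ρ g x r y) / (κ * r / 64) * (U + m y))) := by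
      by_cases c1 : stp (qT κ ρ g x r y) = 0
      · rw [c1]
        simp
      · by_cases c2 : stp' (qP κ ρ g x r y) = 0
        · rw [c2]
          simp
        · have c3 := lowU y (qT_pos hκ hr (stp_pos c1))
          have c4 := qP_lt hκ hr (stp'_supp c2).2
          have c6 : κ * r / 8 + uu κ ρ g x y ≤ 5 * κ * r / 32 := by linarith
          have c7 : stp' (qP κ ρ g x r y) / (κ * r / 64) * U
              ≤ stp' (qP κ ρ g x r y) / (κ * r / 64) * (U + m y) := by
            gcongr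
            linarith
          calc stp (qT κ ρ g x r y) * ((κ * r / 8 + uu κ ρ g x y) *
                (stp' (qP κ ρ g x r y) / (κ * r / 64) * U))
              ≤ stp (qT κ ρ g x r y) * ((κ * r / 8 + uu κ ρ g x y) *
                (stp' (qP κ ρ g x r y) / (κ * r / 64) * (U + m y))) := by gcongr
            _ ≤ stp (qT κ ρ g x r y) * ((5 * κ * r / 32) *
                (stp' (qP κ ρ g x r y) / (κ * r / 64) * (U + m y))) := by gcongr
            _ = _ := by ring
    linarith [b1, b2, b3]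
  have i1 : IntegrableOn (fun y => fderiv ℝ F y (W y)) (closedBall x R) :=
    int_cont (fdW_cont hFc h.wd.cont) x R
  have i2 := (int_cont (pr_cont h hρ r) x R).const_mul (5 * κ * r / 32)
  have i3 := int_cont hLc x R
  have i4 := int_cont hEc x R
  have h1 : ∫ y in closedBall x R, L y ≤ ∫ y in closedBall x R,
      ((fderiv ℝ F y (W y) + 5 * κ * r / 32 * Pool.Agent.Q85.VL.pr κ ρ g x W m r y) + E y) :=
    setIntegral_mono_on i3 ((i1.add i2).add i4) isClosed_closedBall.measurableSet key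
  have h2 : ∫ y in closedBall x R,
      ((fderiv ℝ F y (W y) + 5 * κ * r / 32 * Pool.Agent.Q85.VL.pr κ ρ g x W m r y) + E y)
      = 5 * κ * r / 32 * AA κ ρ R g x W m r + ∫ y in closedBall x R, E y := by
    rw [int_split i1 i2 i4, h0, zero_add, integral_const_mul]
    rfl
  rw [h2] at h1
  -- the lower bound
  have h3 : ∫ y in closedBall x ρ, κ / 2 * f y ≤ ∫ y in closedBall x R, L y := by
    refine small_le_int hLc (h.fc.const_mul _) hρR ?_ ?_
    · intro y hy
      rw [mem_closedBall, dist_eq_norm] at hy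
      have hd := ds_near hy
      have hl : len (y - x) ≤ 2 * ρ := (len_le_two _).trans (by linarith)
      have hg := abs_le.1 (h.lip y x)
      have hd0 := rho_le_ds x ρ y
      have hT : 1 ≤ qT κ ρ g x r y := by
        unfold qT ww
        rw [le_div_iff₀ (by positivity)]
        nlinarith
      have hP : qP κ ρ g x r y ≤ 0 := by
        unfold qP uu
        apply div_nonpos_of_nonpos_of_nonneg _ (by positivity)
        have : 0 ≤ κ / 2 * ds x ρ y := mul_nonneg (by positivity) (ds_nn x ρ y)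
        nlinarith
      simp only [hL]
      rw [stp_right hT, stp_left hP]
      linarith
    · intro y hy
      simp only [hL]
      have a1 := stp_le (qP κ ρ g x r y)
      have a2 := stp_nn (qT κ ρ g x r y)
      have a3 := fnn h hy
      have c5 : 0 ≤ 1 - stp (qP κ ρ g x r y) := by linarith
      positivity
  rw [integral_const_mul] at h3 hE1
  have hA := AA_nn h hκ hρ hr
  have hM : 0 ≤ ∫ y in closedBall x r, m y :=
    setIntegral_nonneg isClosed_closedBall.measurableSet fun y _ => h.m0 y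
  have h4 : κ / 2 * ∫ y in closedBall x ρ, f y ≤ 5 * κ * r / 32 * AA κ ρ R g x W m r
      + 6 * ∫ y in closedBall x r, m y := by linarith
  have h5 : 4 * ρ * (κ / 2 * ∫ y in closedBall x ρ, f y)
      ≤ 4 * ρ * (5 * κ * r / 32 * AA κ ρ R g x W m r + 6 * ∫ y in closedBall x r, m y) := by
    gcongr
  have h6 : 4 * ρ * (5 * κ * r / 32) ≤ (κ * r / 8) ^ 2 := by
    have : 0 < κ * r := by positivity
    nlinarith
  have h7 : 4 * ρ * 6 ≤ κ * r / 4 := by linarith
  have h8 : 4 * ρ * (5 * κ * r / 32) * AA κ ρ R g x W m r ≤ (κ * r / 8) ^ 2 * AA κ ρ R g x W m r :=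
    mul_le_mul_of_nonneg_right h6 hA
  have h9 : 4 * ρ * 6 * ∫ y in closedBall x r, m y ≤ κ * r / 4 * ∫ y in closedBall x r, m y :=
    mul_le_mul_of_nonneg_right h7 hM
  linarith

end Pool.Agent.Run7.h32.VL
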