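import Pool.Agent.Run7.h32.VL.Flx

/-!
Project VL, statement VL-7 (`StmMorV`).
-/

set_option autoImplicit false

open MeasureTheory Set Metric Filter Topology
open scoped ContDiff
open H459R3.NS Pool.Agent.W268.NS Pool.Agent.Q67.VD

namespace Pool.Agent.Run7.h32.VL

open Pool.Agent.Q85.VL
open Pool.Agent.Q151.CC (WD)

variable {κ ρ R μ : ℝ} {x : V} {f m : V → ℝ} {W : V → V} {g : V → ℝ}

lemma m_int_nn (h : LF κ R x f m W g) (z : V) (r : ℝ) : 0 ≤ ∫ y in closedBall z r, m y :=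
  setIntegral_nonneg isClosed_closedBall.measurableSet fun y _ => h.m0 y

lemma ks_mu (hK : KS R x m μ) : 0 ≤ μ := by
  have := hK 0
  simpa using this

lemma sc_pos (hR : 0 < R) (j : ℕ) : 0 < (1 / 256 : ℝ) ^ j * R := by positivity

lemma sc_le (hR : 0 < R) (j : ℕ) : (1 / 256 : ℝ) ^ j * R ≤ R := by
  have : (1 / 256 : ℝ) ^ j ≤ 1 := pow_le_one₀ (by norm_num) (by norm_num)
  nlinarith

/-- one term of the sum -/
lemma ks_term (h : LF κ R x f m W g) (hR : 0 < R) (hK : KS R x m μ) (j : ℕ) :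
    ∫ y in closedBall x ((1 / 256 : ℝ) ^ j * R), m y ≤ μ * ((1 / 256 : ℝ) ^ j * R) := by
  have h1 := hK (j + 1)
  have h2 : ((1 / 256 : ℝ) ^ j * R)⁻¹ * ∫ y in closedBall x ((1 / 256 : ℝ) ^ j * R), m y
      ≤ ∑ j ∈ Finset.range (j + 1),
        ((1 / 256 : ℝ) ^ j * R)⁻¹ * ∫ y in closedBall x ((1 / 256 : ℝ) ^ j * R), m y :=
    Finset.single_le_sum (f := fun j =>
      ((1 / 256 : ℝ) ^ j * R)⁻¹ * ∫ y in closedBall x ((1 / 256 : ℝ) ^ j * R), m y)
      (fun i _ => mul_nonneg (inv_nonneg.2 (sc_pos hR i).le) (m_int_nn h x _))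
      (Finset.mem_range.2 (Nat.lt_succ_self j))
  have h3 := h2.trans h1
  rw [inv_mul_le_iff₀ (sc_pos hR j)] at h3
  linarith

/-- the flux is almost monotone along the scales -/
lemma AA_chain (h : LF κ R x f m W g) (hκ : 0 < κ) (hκ1 : κ ≤ 1) (hρ : 0 < ρ) (hR : 0 < R)
    (i j : ℕ) :
    AA κ ρ R g x W m ((1 / 256 : ℝ) ^ (i + j) * R) ≤ AA κ ρ R g x W m ((1 / 256 : ℝ) ^ i * R)
      + 65536 / κ * ∑ k ∈ Finset.range j, ((1 / 256 : ℝ) ^ (i + k) * R)⁻¹ *
        ∫ y in closedBall x ((1 / 256 : ℝ) ^ (i + k) * R), m y := by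
  induction j with
  | zero => simp
  | succ j ih =>
    rw [Finset.sum_range_succ, mul_add]
    have h1 : (1 / 256 : ℝ) ^ (i + (j + 1)) * R = (1 / 256 : ℝ) ^ (i + j) * R / 256 := by
      rw [← add_assoc, pow_succ]
      ring
    have h2 := sc_pos hR (i + j)
    have h3 := stmCmp κ ρ R ((1 / 256 : ℝ) ^ (i + j) * R) ((1 / 256 : ℝ) ^ (i + j) * R / 256) x f m W
      g hκ hκ1 hρ h (by positivity) (by linarith) (sc_le hR _)
    have h4 : 256 / (κ * ((1 / 256 : ℝ) ^ (i + j) * R / 256))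
        = 65536 / κ * ((1 / 256 : ℝ) ^ (i + j) * R)⁻¹ := by
      field_simp
      norm_num
    rw [h4] at h3
    rw [h1]
    linarith

/-- the bound of the flux at all the scales -/
lemma AA_bound (h : LF κ R x f m W g) (hκ : 0 < κ) (hκ1 : κ ≤ 1) (hρ : 0 < ρ) (hR : 0 < R)
    (hK : KS R x m μ) (j : ℕ) :
    AA κ ρ R g x W m ((1 / 256 : ℝ) ^ j * R)
      ≤ 256 / κ * ((∫ y in closedBall x R, f y) / R) + 65664 / κ * μ := by
  have h1 := AA_chain h hκ hκ1 hρ hR 0 j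
  simp only [zero_add, pow_zero, one_mul] at h1
  have h2 := hK j
  have h3 := stmUB κ ρ R R x f m W g hκ hκ1 hρ h hR le_rfl
  have h4 : ∫ y in closedBall x R, (2 * f y + m y)
      = 2 * (∫ y in closedBall x R, f y) + ∫ y in closedBall x R, m y := by
    rw [integral_add ((int_cont h.fc x R).const_mul 2) (int_cont h.mc x R), integral_const_mul]
  rw [h4] at h3
  have h5 := ks_term h hR hK 0
  simp only [pow_zero, one_mul] at h5
  have h6 : 128 / (κ * R) * (2 * (∫ y in closedBall x R, f y) + ∫ y in closedBall x R, m y)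
      ≤ 128 / (κ * R) * (2 * (∫ y in closedBall x R, f y) + μ * R) := by gcongr
  have h7 : 128 / (κ * R) * (2 * (∫ y in closedBall x R, f y) + μ * R)
      = 256 / κ * ((∫ y in closedBall x R, f y) / R) + 128 / κ * μ := by
    field_simp
    ring
  have h8 : 65536 / κ * ∑ k ∈ Finset.range j, ((1 / 256 : ℝ) ^ k * R)⁻¹ *
        ∫ y in closedBall x ((1 / 256 : ℝ) ^ k * R), m y ≤ 65536 / κ * μ := by gcongr
  have h9 : 65664 / κ * μ = 128 / κ * μ + 65536 / κ * μ := by ring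
  rw [h9]
  linarith

theorem stmMorV : StmMorV := by
  intro κ hκ hκ1
  refine ⟨2 ^ 41 / κ ^ 2, κ / 128, by positivity, by positivity, by linarith, ?_⟩
  intro R μ x f m W g hR h hK r hr hrR
  have hμ := ks_mu hK
  obtain ⟨I, hI⟩ : ∃ I, I = ∫ y in closedBall x R, f y := ⟨_, rfl⟩
  have hI0 : 0 ≤ I := by
    rw [hI]
    exact setIntegral_nonneg isClosed_closedBall.measurableSet fun y hy => fnn h hy
  rw [← hI]
  -- the scale
  obtain ⟨j, hj1, hj2⟩ := exists_nat_pow_near_of_lt_one (x := 128 * r / (κ * R)) (y := (1 / 256 : ℝ))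
    (by positivity) (by rw [div_le_one (by positivity)]; linarith) (by norm_num) (by norm_num)
  obtain ⟨s, hs⟩ : ∃ s, s = (1 / 256 : ℝ) ^ j * R := ⟨_, rfl⟩
  have hs0 : 0 < s := hs ▸ sc_pos hR j
  have hsR : s ≤ R := hs ▸ sc_le hR j
  have hj1' : s ≤ 32768 * r / κ := by
    rw [hs]
    rw [pow_succ, lt_div_iff₀ (by positivity)] at hj1
    rw [le_div_iff₀ hκ]
    nlinarith
  have hj2' : 128 / κ * r ≤ s := by
    rw [hs]
    rw [div_le_iff₀ (by positivity)] at hj2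
    rw [div_mul_eq_mul_div, div_le_iff₀ hκ]
    linarith
  have h1 := stmLB κ r R s x f m W g hκ hκ1 hr h hj2' hsR
  have h2 := AA_bound h hκ hκ1 hr hR hK j
  have h3 := ks_term h hR hK j
  rw [← hs] at h2 h3
  rw [← hI] at h2
  have hA := AA_nn (R := R) (x := x) (f := f) (m := m) (W := W) (g := g) h hκ hr hs0
  have h4 : 2 * κ * r * ∫ y in closedBall x r, f y ≤ (κ * (32768 * r / κ) / 8) ^ 2 *
      (256 / κ * (I / R) + 65664 / κ * μ) + κ * (32768 * r / κ) / 4 * (μ * (32768 * r / κ)) := by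
    refine h1.trans ?_
    have c1 : (κ * s / 8) ^ 2 * AA κ r R g x W m s ≤ (κ * (32768 * r / κ) / 8) ^ 2 *
        (256 / κ * (I / R) + 65664 / κ * μ) := by gcongr
    have c2 : κ * s / 4 * ∫ y in closedBall x s, m y
        ≤ κ * (32768 * r / κ) / 4 * (μ * (32768 * r / κ)) := by
      have : ∫ y in closedBall x s, m y ≤ μ * (32768 * r / κ) := h3.trans (by gcongr)
      gcongr
      exact m_int_nn h x s
    linarith
  have h5 : 2 * κ * r * (2 ^ 41 / κ ^ 2 * (I / R + μ) * r) - ((κ * (32768 * r / κ) / 8) ^ 2 *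
      (256 / κ * (I / R) + 65664 / κ * μ) + κ * (32768 * r / κ) / 4 * (μ * (32768 * r / κ)))
      = r ^ 2 / κ * ((2 ^ 42 - 2 ^ 32) * (I / R) + (2 ^ 42 - 4096 ^ 2 * 65664 - 2 ^ 28) * μ) := by
    field_simp
    ring
  have h6 : 0 ≤ r ^ 2 / κ * ((2 ^ 42 - 2 ^ 32) * (I / R) + (2 ^ 42 - 4096 ^ 2 * 65664 - 2 ^ 28) * μ) := by
    have : 0 ≤ I / R := by positivity
    norm_num
    positivity
  have h7 : 2 * κ * r * ∫ y in closedBall x r, f y
      ≤ 2 * κ * r * (2 ^ 41 / κ ^ 2 * (I / R + μ) * r) := by linarith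
  exact le_of_mul_le_mul_left h7 (by positivity)

end Pool.Agent.Run7.h32.VL
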